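import Pool.Agent.Helper90.R1.Defs

/-!
# Project R1: evaluation of cochains at `x, x', x, x', …`

`evL n x x' M z` is the value of the cochain `z` of degree `n` at `(x, x', x, …)` (the first, that
is the innermost, argument is `x`). If `x x' = x' x = 0` and `ε(x) = ε(x') = 0` then the value of a
coboundary `dC y` is `x • evL y`.
-/

set_option linter.unusedSectionVars false
set_option autoImplicit false

open CategoryTheory CategoryTheory.Abelian CategoryTheory.Limits
open scoped ModuleCat TensorProduct
open Pool.Agent.Helper59.FG Pool.Agent.Helper90.FC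

namespace Pool.Agent.Helper90.R1

universe u

section

variable (k : Type u) [Field k] {A : Type u} [Ring A] [Algebra k A]

/-- evaluation of an element of `I M` -/
noncomputable def evI (x : A) (M : ModuleCat.{u} A) : IM k M →ₗ[k] M where
  toFun g := fn k g x
  map_add' _ _ := rfl
  map_smul' c g := fn_ksmul k c g x

/-- evaluation at `x, x', x, …` -/
noncomputable def evL : (n : ℕ) → (x x' : A) → (M : ModuleCat.{u} A) → (Cn k n M →ₗ[k] M)
  | 0, _, _, _ => LinearMap.id
  | n + 1, x, x', M => evI k x M ∘ₗ evL n x' x (IM k M)

theorem evL_succ (n : ℕ) (x x' : A) (M : ModuleCat.{u} A) (z : Cn k (n + 1) M) :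
    evL k (n + 1) x x' M z = fn k (evL k n x' x (IM k M) z) x := rfl

theorem evL_map (n : ℕ) (x x' : A) {M M' : ModuleCat.{u} A} (g : M →ₗ[k] M') (z : Cn k n M) :
    evL k n x x' M' (Cmap k n g z) = g (evL k n x x' M z) := by
  induction n generalizing x x' M M' with
  | zero => rfl
  | succ n ih =>
    rw [evL_succ]
    have h := ih x' x (M := IM k M) (M' := IM k M') (Imap k g) z
    exact congrArg (fun y => fn k y x) h

end

section

variable (k : Type u) [Field k] {A : Type u} [Ring A] [Bialgebra k A]

theorem evL_dC (n : ℕ) (x x' : A) (h1 : x * x' = 0) (h2 : x' * x = 0)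
    (h3 : Coalgebra.counit (R := k) x = 0) (h4 : Coalgebra.counit (R := k) x' = 0)
    (M : ModuleCat.{u} A) (z : Cn k n M) :
    evL k (n + 1) x x' M (dC k n M z) = x • evL k n x' x M z := by
  induction n generalizing x x' M with
  | zero =>
    change x • (show M from z) - Coalgebra.counit (R := k) x • (show M from z) = _
    rw [h3, zero_smul, sub_zero]
    rfl
  | succ n ih =>
    rw [dC_succ, map_sub]
    have e1 : evL k (n + 1 + 1) x x' M (embC k (n + 1) M z) = x • evL k (n + 1) x' x M z := by
      rw [evL_succ]
      have h := evL_map k (n + 1) x' x (kl k (emb k M)) z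
      have h' : evL k (n + 1) x' x (IM k M) (embC k (n + 1) M z) =
        kl k (emb k M) (evL k (n + 1) x' x M z) := h
      exact congrArg (fun y => fn k y x) h'
    have e2 : evL k (n + 1 + 1) x x' M (shL k (dC k n (IM k M)) z) = 0 := by
      rw [evL_succ]
      have h : evL k (n + 1) x' x (IM k M) (dC k n (IM k M) z) =
        x' • evL k n x x' (IM k M) z := ih x' x h2 h1 h4 h3 (IM k M) z
      have h' := congrArg (fun y => fn k y x) h
      refine h'.trans ?_
      rw [fn_smul, h1, map_zero]
    rw [e1, e2, sub_zero]

/-- the last argument -/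
def lst (x x' : A) : ℕ → A
  | 0 => x
  | n + 1 => lst x' x n

theorem evL_ap (n : ℕ) (x x' : A) (M : ModuleCat.{u} A) (a : HD k A) (z : Cn k n M) :
    evL k (n + 1) x x' M (ap k n M a z) = a.ofConv (lst x x' n) • evL k n x x' M z := by
  induction n generalizing x x' M with
  | zero => rfl
  | succ n ih =>
    rw [evL_succ]
    have h : evL k (n + 1) x' x (IM k M) (ap k n (IM k M) a z) =
      a.ofConv (lst x' x n) • evL k n x' x (IM k M) z := ih x' x (IM k M) z
    refine (congrArg (fun y => fn k y x) h).trans ?_
    rw [fn_ksmul]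
    rfl

/-- the parity -/
def par : ℕ → Fin 2
  | 0 => 0
  | n + 1 => 1 - par n

theorem par_even (n : ℕ) : par (2 * n) = 0 := by
  induction n with
  | zero => rfl
  | succ n ih =>
    have e : 2 * (n + 1) = 2 * n + 1 + 1 := by ring
    rw [e]
    change 1 - (1 - par (2 * n)) = 0
    rw [ih]
    decide

theorem par_lst (x x' : A) (n : ℕ) (a : HD k A) :
    a.ofConv (lst x x' n) = (!![0, a.ofConv x; a.ofConv x', 0] : Matrix (Fin 2) (Fin 2) k)
      (par n) (par (n + 1)) := by
  induction n generalizing x x' with
  | zero => rfl
  | succ n ih =>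
    have h := ih x' x
    change a.ofConv (lst x' x n) = _
    rw [h]
    change _ = (!![0, a.ofConv x; a.ofConv x', 0] : Matrix (Fin 2) (Fin 2) k)
      (1 - par n) (1 - (1 - par n))
    change (!![0, a.ofConv x'; a.ofConv x, 0] : Matrix (Fin 2) (Fin 2) k)
      (par n) (1 - par n) = _
    generalize par n = i
    fin_cases i <;> rfl

variable [Module.Finite k A]

/-- comparison of the two evaluations -/
theorem evL_evn (n : ℕ) (x x' : A) {w : TA k (HD k A)} (hw : w ∈ Tn k (HD k A) n) :
    evL k n x x' (trivObj k A) (evn k n w) =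
      (show trivObj k A from (EV k x x' w 0 (par n) : k)) := by
  induction n generalizing w with
  | zero =>
    change w ∈ LinearMap.range (TensorAlgebra.ι k (M := HD k A)) ^ 0 at hw
    rw [pow_zero, Submodule.mem_one] at hw
    obtain ⟨r, rfl⟩ := hw
    have h1 : evn k 0 (algebraMap k (TA k (HD k A)) r) =
        r • (show Cn k 0 (trivObj k A) from one0 k A 0) := by
      rw [Algebra.algebraMap_eq_smul_one, map_smul]
      congr 1
      exact congrFun (rmul_one k (one0 k A)) 0
    have h2 : (EV k x x' (algebraMap k (TA k (HD k A)) r) 0 (par 0) : k) = r := by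
      rw [AlgHom.commutes, Matrix.algebraMap_matrix_apply]
      rfl
    rw [h1, h2]
    change Coalgebra.counit (R := k) (algebraMap k A r) * (1 : k) = r
    rw [Bialgebra.counit_algebraMap, mul_one]
  | succ n ih =>
    change w ∈ LinearMap.range (TensorAlgebra.ι k (M := HD k A)) ^ (n + 1) at hw
    rw [pow_succ] at hw
    induction hw using Submodule.mul_induction_on' with
    | mem_mul_mem a ha b hb =>
      obtain ⟨b, rfl⟩ := hb
      have h1 : evn k (n + 1) (a * TensorAlgebra.ι k b) = ap k n (trivObj k A) b (evn k n a) := by
        have h2 : evT k (a * TensorAlgebra.ι k b) = rmul k (evT k a) (TensorAlgebra.ι k b) :=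
          rmul_mul k (one0 k A) a _
        have h3 := congrFun h2 (n + 1)
        rw [rmul_io] at h3
        exact h3
      rw [h1, evL_ap, ih ha, par_lst]
      have h4 : EV k x x' (a * TensorAlgebra.ι k b) 0 (par (n + 1)) =
          EV k x x' a 0 (par n) * (!![0, b.ofConv x; b.ofConv x', 0] : Matrix (Fin 2) (Fin 2) k)
            (par n) (par (n + 1)) := by
        rw [map_mul]
        have h5 : EV k x x' (TensorAlgebra.ι k b) = !![0, b.ofConv x; b.ofConv x', 0] :=
          EV_io k x x' b
        rw [h5, Matrix.mul_apply, Fin.sum_univ_two]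
        have h6 : par (n + 1) = 1 - par n := rfl
        rw [h6]
        generalize par n = i
        fin_cases i
        · simp
        · simp
      rw [h4]
      change Coalgebra.counit (R := k) (algebraMap k A _) * (EV k x x' a 0 (par n) : k) = _
      rw [Bialgebra.counit_algebraMap, mul_comm]
    | add a ha b hb ha' hb' =>
      rw [map_add, map_add, ha', hb', map_add]
      rfl

end

end Pool.Agent.Helper90.R1
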