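import Pool.Agent.Helper90.R1.FX
import Pool.Agent.Helper90.R1.EvL
import Pool.Agent.Helper90.FC.KData

/-!
# Project R1: the module `K_Θ` is free over `k[X]`

`Θ` is a cocycle of even degree with evaluation `1` at `X^(N-1), X, …`; `K` is an extension
`0 → k → K → Ω → 0` of class `Θ`. The element `e`, the image of `1`, is of the form `X^(N-1) m`
(the image of `Θ` in `Ext(k, K)` vanishes, so `e` is the value of a coboundary), the defect of a
syzygy of `k` is at most one (`defect_shift`), and `N` divides the dimension of `K`.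
-/

set_option linter.unusedSectionVars false
set_option autoImplicit false

open CategoryTheory CategoryTheory.Abelian CategoryTheory.Limits
open scoped ModuleCat TensorProduct
open Pool.Agent.Helper59.FG Pool.Agent.Helper90.FC

namespace Pool.Agent.Helper90.R1

universe u

section

variable {k : Type u} [Field k] {B C : Type u} [Ring B] [Ring C] [HopfAlgebra k B]
variable [HopfAlgebra k C] [Module.Finite k B] {N : ℕ} {π : B →ₐc[k] C}

theorem RData.counit_X (R : RData N π) : Coalgebra.counit (R := k) R.X = 0 := by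
  have h1 : π R.X = 0 := (R.ker _).2 ⟨1, by rw [one_mul]⟩
  have h2 : Coalgebra.counit (R := k) (π R.X) = Coalgebra.counit (R := k) R.X :=
    aug_of_bialg π _
  rw [← h2, h1, map_zero]

/-- The element `1` of the trivial module. -/
private noncomputable def oneK (k : Type u) [Field k] (B : Type u) [Ring B] [HopfAlgebra k B] :
    trivObj k B := (show trivObj k B from (1 : k))

private theorem smul_oneK (c : k) : c • oneK k B = (show trivObj k B from c) := by
  change Coalgebra.counit (R := k) (algebraMap k B c) * (1 : k) = c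
  rw [Bialgebra.counit_algebraMap, mul_one]

private theorem span_oneK : Submodule.span k {oneK k B} = ⊤ := by
  rw [eq_top_iff]
  intro x _
  rw [Submodule.mem_span_singleton]
  exact ⟨(show k from x), smul_oneK _⟩

private theorem triv_finite : Module.Finite k (trivObj k B) :=
  ⟨⟨{oneK k B}, by rw [Finset.coe_singleton]; exact span_oneK⟩⟩

private theorem triv_finrank : Module.finrank k (trivObj k B) = 1 := by
  refine finrank_eq_one (oneK k B) ?_ fun w => ⟨(show k from w), smul_oneK _⟩
  intro h
  exact one_ne_zero (α := k) h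

/-- dimensions and defects of syzygies -/
private theorem syz_defect (R : RData N π) (hN : 2 ≤ N) {a : ℕ} {Ω : ModuleCat.{u} B}
    {κ : Ext (trivObj k B) Ω a} (h : Syz k a Ω κ) :
    Module.finrank k (LinearMap.ker (XL R Ω)) ≤
      Module.finrank k (LinearMap.range (XL R Ω ^ (N - 1))) + 1 ∧
    (Even a → N ∣ Module.finrank k Ω + (N - 1)) ∧ (Odd a → N ∣ Module.finrank k Ω + 1) := by
  induction h with
  | zero Ω e =>
    have hfin := triv_finite (k := k) (B := B)
    have e' : trivObj k B ≃ₗ[k] Ω := e.toLinearEquiv.restrictScalars k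
    have h1 : Module.finrank k Ω = 1 := by
      rw [← LinearEquiv.finrank_eq e', triv_finrank]
    have hfΩ : Module.Finite k Ω := Module.Finite.equiv e'
    refine ⟨?_, fun _ => ⟨1, by omega⟩, fun ho => absurd ho (by decide)⟩
    have h2 := Submodule.finrank_le (LinearMap.ker (XL R Ω))
    omega
  | @succ a Ω κ h Ω' P i p w hS hP hf ih =>
    obtain ⟨ih1, ih2, ih3⟩ := ih
    have hfΩ : Module.Finite B Ω := h.finite
    have hfΩ' : Module.Finite B Ω' :=
      (Syz.succ h i p w hS hP hf).finite
    have k1 : Module.Finite k Ω := Module.Finite.trans B Ω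
    have k2 : Module.Finite k Ω' := Module.Finite.trans B Ω'
    have k3 : Module.Finite k P := Module.Finite.trans B P
    have hP' := (FX_iff R P).1 (FX.proj R (by omega) P hP)
    have hE := (ShortComplex.ShortExact.moduleCat_exact_iff_function_exact _).1 hS.exact
    have hsur : Function.Surjective p.hom := (ModuleCat.epi_iff_surjective _).1 hS.epi_g
    have hinj : Function.Injective i.hom := (ModuleCat.mono_iff_injective _).1 hS.mono_f
    have hiq : LinearMap.range (i.hom.restrictScalars k) =
        LinearMap.ker (p.hom.restrictScalars k) := by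
      ext x
      constructor
      · rintro ⟨y, rfl⟩
        exact (hE _).2 ⟨y, rfl⟩
      · intro hx
        obtain ⟨y, hy⟩ := (hE x).1 hx
        exact ⟨y, hy⟩
    have h1 := defect_shift (by omega : 0 < N) (XL R P) (XL R Ω') (XL R Ω)
      (i.hom.restrictScalars k) (p.hom.restrictScalars k) hinj hsur hiq
      (fun v => (map_smul i.hom R.X v).symm) (fun v => map_smul p.hom R.X v) (XL_nilp R P)
      (XL_nilp R Ω) hP'
    have h2 := (ker_le_iff (by omega : 0 < N) (XL R P) (XL_nilp R P)).1 hP'
    have h3 : Module.finrank k P = Module.finrank k Ω' + Module.finrank k Ω := by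
      have h4 := LinearMap.finrank_range_add_finrank_ker (p.hom.restrictScalars k)
      have h5 : LinearMap.range (p.hom.restrictScalars k) = ⊤ := LinearMap.range_eq_top.2 hsur
      have h6 : Module.finrank k (LinearMap.range (i.hom.restrictScalars k)) =
          Module.finrank k Ω' := LinearMap.finrank_range_of_inj hinj
      rw [h5, finrank_top, ← hiq, h6] at h4
      omega
    refine ⟨by omega, fun he => ?_, fun ho => ?_⟩
    · have ho : Odd a := by
        rcases Nat.even_or_odd a with h | h
        · exact absurd h.add_one (Nat.not_odd_iff_even.2 he)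
        · exact h
      obtain ⟨c, hc⟩ := ih3 ho
      have h5 : Module.finrank k Ω' + (N - 1) + N * c =
          N * (Module.finrank k (LinearMap.ker (XL R P)) + 1) := by
        rw [mul_add, ← h2, mul_one, ← hc, h3]
        omega
      exact (Nat.dvd_add_left (Dvd.intro _ rfl)).1 (h5 ▸ Dvd.intro _ rfl)
    · have he : Even a := by
        rcases Nat.even_or_odd a with h | h
        · exact h
        · exact absurd h.add_one (Nat.not_even_iff_odd.2 ho)
      obtain ⟨c, hc⟩ := ih2 he
      have h5 : Module.finrank k Ω' + 1 + N * c =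
          N * (Module.finrank k (LinearMap.ker (XL R P)) + 1) := by
        rw [mul_add, ← h2, mul_one, ← hc, h3]
        omega
      exact (Nat.dvd_add_left (Dvd.intro _ rfl)).1 (h5 ▸ Dvd.intro _ rfl)

/-- the value of a coboundary -/
private theorem bound_eval (R : RData N π) (hN : 2 ≤ N) (n : ℕ) (hn : 0 < n) (M : ModuleCat.{u} B)
    (z : Cn k n M) (hz : z ∈ Zc k n M) (h0 : cls k n M ⟨z, hz⟩ = 0) :
    ∃ y : M, evL k n (R.X ^ (N - 1)) R.X M z = R.X ^ (N - 1) • y := by
  have hx : R.X ^ (N - 1) * R.X = 0 := by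
    rw [← pow_succ, (by omega : N - 1 + 1 = N), R.nilp]
  have hx' : R.X * R.X ^ (N - 1) = 0 := by
    rw [← pow_succ', (by omega : N - 1 + 1 = N), R.nilp]
  have hc : Coalgebra.counit (R := k) (R.X ^ (N - 1)) = 0 := by
    have h3 : Coalgebra.counit (R := k) (R.X ^ (N - 1)) =
        (Bialgebra.counitAlgHom k B R.X) ^ (N - 1) := map_pow (Bialgebra.counitAlgHom k B) _ _
    rw [h3]
    have h4 : Bialgebra.counitAlgHom k B R.X = 0 := R.counit_X
    rw [h4, zero_pow (by omega)]
  cases n with
  | zero => exact absurd hn (lt_irrefl _)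
  | succ n =>
    obtain ⟨w, hw⟩ := cls_inj k n M ⟨z, hz⟩ h0
    refine ⟨evL k n R.X (R.X ^ (N - 1)) M w, ?_⟩
    rw [← evL_dC k n (R.X ^ (N - 1)) R.X hx hx' hc R.counit_X M w, hw]

/-- the image of `1` in `K` is of the form `X^(N-1) m` -/
private theorem e_mem (R : RData N π) (hN : 2 ≤ N) {m : ℕ} (hm : 0 < m) {Θ : TA k (HD k B)}
    (hΘ : Θ ∈ Tn k (HD k B) (2 * m)) (hd : dd k (HD k B) Θ = 0)
    (hev : EV k (R.X ^ (N - 1)) R.X Θ 0 0 = 1) (D : KData k (clsT k (2 * m) Θ hd)) :
    ∃ y : D.K, D.i.hom (oneK k B) = R.X ^ (N - 1) • y := by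
  have h0 : (clsT k (2 * m) Θ hd).comp (Ext.mk₀ D.i) (add_zero _) = 0 := by
    have h2 := congrArg (fun t => t.comp (Ext.mk₀ D.i) (add_zero (2 * m))) D.hκ
    refine h2.symm.trans ?_
    have h1 : D.ses.extClass.comp (Ext.mk₀ D.i) (add_zero 1) = 0 :=
      ShortComplex.ShortExact.extClass_comp D.ses
    change (D.κ.comp D.ses.extClass D.ha).comp (Ext.mk₀ D.i) (add_zero (2 * m)) = 0
    rw [Ext.comp_assoc_of_third_deg_zero, h1, Ext.comp_zero]
  have h1 : Cmap k (2 * m) (kl k D.i) (evn k (2 * m) Θ) ∈ Zc k (2 * m) D.K :=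
    Cmap_mem_Zc k D.i (evn_mem k _ hd)
  have h2 : cls k (2 * m) D.K ⟨Cmap k (2 * m) (kl k D.i) (evn k (2 * m) Θ), h1⟩ = 0 := by
    rw [← h0]
    exact (cls_nat k (2 * m) D.i ⟨evn k (2 * m) Θ, evn_mem k _ hd⟩).symm
  obtain ⟨y, hy⟩ := bound_eval R hN (2 * m) (by omega) D.K _ h1 h2
  refine ⟨y, ?_⟩
  rw [← hy, evL_map, evL_evn k (2 * m) _ _ hΘ, par_even]
  change D.i.hom (oneK k B) = D.i.hom (show trivObj k B from (EV k (R.X ^ (N - 1)) R.X Θ 0 0 : k))
  rw [hev]
  rfl

/-- `K_Θ` is free over `k[X]`. -/
theorem FX_KData (R : RData N π) (hN : 2 ≤ N) {m : ℕ} (hm : 0 < m) {Θ : TA k (HD k B)}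
    (hΘ : Θ ∈ Tn k (HD k B) (2 * m)) (hd : dd k (HD k B) Θ = 0)
    (hev : EV k (R.X ^ (N - 1)) R.X Θ 0 0 = 1) (D : KData k (clsT k (2 * m) Θ hd)) :
    FX R D.K := by
  obtain ⟨y, hy⟩ := e_mem R hN hm hΘ hd hev D
  obtain ⟨h1, -, h2⟩ := syz_defect R hN D.syz
  have hfK := D.finK
  have hfΩ : Module.Finite B D.Ω := D.syz.finite
  have k1 : Module.Finite k D.Ω := Module.Finite.trans B D.Ω
  have k2 : Module.Finite k D.K := Module.Finite.trans B D.K
  have k3 := triv_finite (k := k) (B := B)
  have hE := (ShortComplex.ShortExact.moduleCat_exact_iff_function_exact _).1 D.ses.exact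
  have hsur : Function.Surjective D.p.hom := (ModuleCat.epi_iff_surjective _).1 D.ses.epi_g
  have hinj : Function.Injective D.i.hom := (ModuleCat.mono_iff_injective _).1 D.ses.mono_f
  have hrk : LinearMap.range (D.i.hom.restrictScalars k) =
      LinearMap.ker (D.p.hom.restrictScalars k) := by
    ext x
    constructor
    · rintro ⟨y, rfl⟩
      exact (hE _).2 ⟨y, rfl⟩
    · intro hx
      obtain ⟨y, hy⟩ := (hE x).1 hx
      exact ⟨y, hy⟩
  have hker : LinearMap.ker (D.p.hom.restrictScalars k) =
      Submodule.span k {D.i.hom (oneK k B)} := by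
    rw [← hrk, LinearMap.range_eq_map, ← span_oneK, Submodule.map_span, Set.image_singleton]
    rfl
  have h3 := defect_ext (N := N) (XL R D.K) (XL R D.Ω) (D.i.hom (oneK k B))
    (D.p.hom.restrictScalars k) hsur hker (fun v => map_smul D.p.hom R.X v)
    ⟨y, by rw [XL_pow]; exact hy.symm⟩
  have h4 : Module.finrank k D.K = Module.finrank k D.Ω + 1 := by
    have h5 := LinearMap.finrank_range_add_finrank_ker (D.p.hom.restrictScalars k)
    have h6 : LinearMap.range (D.p.hom.restrictScalars k) = ⊤ := LinearMap.range_eq_top.2 hsur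
    have h7 : Module.finrank k (LinearMap.range (D.i.hom.restrictScalars k)) =
        Module.finrank k (trivObj k B) := LinearMap.finrank_range_of_inj hinj
    rw [h6, finrank_top, ← hrk, h7, triv_finrank] at h5
    omega
  rw [FX_iff]
  refine ker_le_of_dvd (by omega) (XL R D.K) (XL_nilp R D.K) (by omega) ?_
  rw [h4]
  refine h2 ?_
  have h5 := D.ha
  rcases Nat.even_or_odd D.a with h | h
  · exact absurd (h5 ▸ h.add_one) (Nat.not_odd_iff_even.2 (even_two_mul m))
  · exact h

end

end Pool.Agent.Helper90.R1
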