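import Pool.Agent.Helper90.R1.FX
import Pool.Agent.Helper90.FC.Acyc

/-!
# Project R1: inflation is surjective for modules free over `k[X]`

For a `B`-module `N` the subspace `N^X` of the elements killed by `X` is a `B`-submodule (`X B = B X`)
on which `B` acts through `C`; if `0 → N → I → N' → 0` is exact and `N` is free over `k[X]` then
`0 → N^X → I^X → N'^X → 0` is exact (`FX.lift`). Surjectivity of inflation
`Ext^n_C(k, N^X) → Ext^n_B(k, N)` by induction on `n` as in the file `FC/Infl.lean`.
-/

set_option linter.unusedSectionVars false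
set_option autoImplicit false

open CategoryTheory CategoryTheory.Abelian CategoryTheory.Limits
open scoped ModuleCat TensorProduct
open Pool.Agent.Helper59.FG Pool.Agent.Helper90.FC

namespace Pool.Agent.Helper90.R1

universe u

section

variable {k : Type u} [Field k] {B C : Type u} [Ring B] [Ring C] [HopfAlgebra k B]
variable [HopfAlgebra k C] [Module.Finite k B] {N₀ : ℕ} {π : B →ₐc[k] C}

/-- Every finite-dimensional `B`-module embeds in a finite-dimensional injective `B`-module which is
free over `k[X]`. -/
theorem exists_emb (R : RData N₀ π) (hN : 0 < N₀) (X : ModuleCat.{u} B) (hX : Module.Finite B X) :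
    ∃ (I : ModuleCat.{u} B) (j : X ⟶ I),
      Function.Injective j.hom ∧ Injective I ∧ Module.Finite B I ∧ FX R I := by
  have hkX : Module.Finite k X := Module.Finite.trans B X
  refine ⟨ModuleCat.of B (Coind k B X),
    ModuleCat.ofHom (Coind.lift (A := B) (LinearMap.id (M := X) (R := k))),
    Coind.lift_id_injective, ?_, ?_, FX.coind R hN X⟩
  · exact (Module.injective_iff_injective_object B (Coind k B X)).1 Coind.injective
  · exact Module.Finite.of_restrictScalars_finite k B _

/-- The elements killed by `X`. -/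
private def inflS (hex : RData N₀ π) (N : ModuleCat.{u} B) : Submodule B N where
  carrier := {x | hex.X • x = 0}
  add_mem' {x y} hx hy := by
    change hex.X • (x + y) = 0
    rw [smul_add, show hex.X • x = 0 from hx, show hex.X • y = 0 from hy, add_zero]
  zero_mem' := smul_zero _
  smul_mem' b x hx := by
    obtain ⟨b', hb'⟩ := hex.norm b
    change hex.X • (b • x) = 0
    rw [← mul_smul, hb', mul_smul, show hex.X • x = 0 from hx, smul_zero]

private theorem inflS_act (hex : RData N₀ π)
    (N : ModuleCat.{u} B) {b : B} (hb : π b = 0) {x : N} (hx : x ∈ inflS hex N) : b • x = 0 := by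
  obtain ⟨c, rfl⟩ := (hex.ker b).1 hb
  rw [mul_smul, show hex.X • x = 0 from hx, smul_zero]

private theorem inflS_act' (hex : RData N₀ π)
    (N : ModuleCat.{u} B) {b b' : B} (hb : π b = π b') (x : inflS hex N) : b • x = b' • x := by
  apply Subtype.ext
  have h1 : π (b - b') = 0 := by rw [map_sub, hb, sub_self]
  have h2 := inflS_act hex N h1 x.2
  rw [sub_smul, sub_eq_zero] at h2
  exact h2

/-- The action of `C` on the invariants. -/
@[reducible] private noncomputable def inflMod 
    (hex : RData N₀ π) (N : ModuleCat.{u} B) : Module C (inflS hex N) where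
  smul c x := Function.surjInv hex.surj c • x
  one_smul x := by
    change Function.surjInv hex.surj 1 • x = x
    rw [inflS_act' hex N (b' := 1) (by rw [Function.surjInv_eq hex.surj, map_one]), one_smul]
  mul_smul c d x := by
    change Function.surjInv hex.surj (c * d) • x =
      Function.surjInv hex.surj c • (Function.surjInv hex.surj d • x)
    rw [← mul_smul]
    exact inflS_act' hex N (by
      rw [map_mul, Function.surjInv_eq hex.surj, Function.surjInv_eq hex.surj,
        Function.surjInv_eq hex.surj]) x
  smul_zero c := by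
    change Function.surjInv hex.surj c • (0 : inflS hex N) = 0
    rw [smul_zero]
  smul_add c x y := by
    change Function.surjInv hex.surj c • (x + y) =
      Function.surjInv hex.surj c • x + Function.surjInv hex.surj c • y
    rw [smul_add]
  add_smul c d x := by
    change Function.surjInv hex.surj (c + d) • x =
      Function.surjInv hex.surj c • x + Function.surjInv hex.surj d • x
    rw [← add_smul]
    exact inflS_act' hex N (by
      rw [map_add, Function.surjInv_eq hex.surj, Function.surjInv_eq hex.surj,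
        Function.surjInv_eq hex.surj]) x
  zero_smul x := by
    change Function.surjInv hex.surj 0 • x = 0
    rw [inflS_act' hex N (b' := 0) (by rw [Function.surjInv_eq hex.surj, map_zero]), zero_smul]

/-- The `C`-module of invariants. -/
private noncomputable def inflM (hex : RData N₀ π)
    (N : ModuleCat.{u} B) : ModuleCat.{u} C :=
  @ModuleCat.of C _ (inflS hex N) _ (inflMod hex N)

private def inflV (hex : RData N₀ π)
    (N : ModuleCat.{u} B) (x : inflM hex N) : N := Subtype.val (p := (· ∈ inflS hex N)) x

private theorem inflV_mem (hex : RData N₀ π)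
    (N : ModuleCat.{u} B) (x : inflM hex N) : inflV hex N x ∈ inflS hex N :=
  Subtype.prop (p := (· ∈ inflS hex N)) x

private theorem inflV_inj (hex : RData N₀ π)
    (N : ModuleCat.{u} B) : Function.Injective (inflV hex N) := Subtype.val_injective

private theorem inflV_add (hex : RData N₀ π)
    (N : ModuleCat.{u} B) (x y : inflM hex N) :
    inflV hex N (x + y) = inflV hex N x + inflV hex N y := rfl

private theorem inflV_smul (hex : RData N₀ π)
    (N : ModuleCat.{u} B) (b : B) (x : inflM hex N) :
    inflV hex N (π b • x) = b • inflV hex N x :=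
  congrArg Subtype.val (inflS_act' hex N (Function.surjInv_eq hex.surj (π b)) x)

private theorem inflV_smul' (hex : RData N₀ π)
    (N : ModuleCat.{u} B) (c : C) (x : inflM hex N) :
    inflV hex N (c • x) = Function.surjInv hex.surj c • inflV hex N x := rfl

private def inflU (hex : RData N₀ π)
    (N : ModuleCat.{u} B) (x : N) (hx : x ∈ inflS hex N) : inflM hex N :=
  (⟨x, hx⟩ : inflS hex N)

private theorem inflV_inflU (hex : RData N₀ π)
    (N : ModuleCat.{u} B) (x : N) (hx : x ∈ inflS hex N) : inflV hex N (inflU hex N x hx) = x := rfl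

private noncomputable def inflFl (hex : RData N₀ π)
    (N : ModuleCat.{u} B) : (res (π : B →ₐ[k] C)).obj (inflM hex N) →ₗ[B] N where
  toFun := inflV hex N
  map_add' := fun _ _ => rfl
  map_smul' := fun b x => inflV_smul hex N b x

/-- The inclusion of the invariants. -/
private noncomputable def inflF (hex : RData N₀ π)
    (N : ModuleCat.{u} B) : (res (π : B →ₐ[k] C)).obj (inflM hex N) ⟶ N :=
  ConcreteCategory.ofHom (C := ModuleCat.{u} B)
    (X := (res (π : B →ₐ[k] C)).obj (inflM hex N)) (Y := N) (inflFl hex N)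

private theorem inflS_map (hex : RData N₀ π)
    {N N' : ModuleCat.{u} B} (g : N ⟶ N') {x : N} (hx : x ∈ inflS hex N) :
    g.hom x ∈ inflS hex N' := by
  change hex.X • g.hom x = 0
  rw [← map_smul, show hex.X • x = 0 from hx, map_zero]

private noncomputable def inflGl (hex : RData N₀ π)
    {N N' : ModuleCat.{u} B} (g : N ⟶ N') : inflM hex N →ₗ[C] inflM hex N' where
  toFun := fun x => inflU hex N' (g.hom (inflV hex N x)) (inflS_map hex g (inflV_mem hex N x))
  map_add' := fun x y => inflV_inj hex N'
    (map_add g.hom (inflV hex N x) (inflV hex N y))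
  map_smul' := fun c x => inflV_inj hex N'
    (map_smul g.hom (Function.surjInv hex.surj c) (inflV hex N x))

/-- Functoriality of the invariants. -/
private noncomputable def inflG (hex : RData N₀ π)
    {N N' : ModuleCat.{u} B} (g : N ⟶ N') : inflM hex N ⟶ inflM hex N' :=
  ConcreteCategory.ofHom (C := ModuleCat.{u} C) (X := inflM hex N) (Y := inflM hex N')
    (inflGl hex g)

private theorem inflG_apply (hex : RData N₀ π)
    {N N' : ModuleCat.{u} B} (g : N ⟶ N') (x : inflM hex N) :
    inflV hex N' ((inflG hex g).hom x) = g.hom (inflV hex N x) := rfl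

private theorem inflG_nat (hex : RData N₀ π)
    {N N' : ModuleCat.{u} B} (g : N ⟶ N') :
    (res (π : B →ₐ[k] C)).map (inflG hex g) ≫ inflF hex N' = inflF hex N ≫ g := rfl

private theorem infl_counit (hex : RData N₀ π) : Coalgebra.counit (R := k) hex.X = 0 := by
  have h1 : π hex.X = 0 := (hex.ker _).2 ⟨1, by rw [one_mul]⟩
  have h2 : Coalgebra.counit (R := k) (π hex.X) = Coalgebra.counit (R := k) hex.X :=
    aug_of_bialg π _
  rw [← h2, h1, map_zero]

private theorem infl_triv (hex : RData N₀ π) (c : trivObj k B) : hex.X • c = 0 := by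
  change Coalgebra.counit (R := k) hex.X * (show k from c) = 0
  rw [infl_counit, zero_mul]

private theorem infl_surj (hex : RData N₀ π) (hN₀ : 0 < N₀)
    {S : ShortComplex (ModuleCat.{u} B)} (hS : S.ShortExact)
    (h : FX hex S.X₁) (z : inflM hex S.X₃) :
    ∃ w : inflM hex S.X₂, (inflG hex S.g).hom w = z := by
  obtain ⟨y, hy, hyz⟩ := FX.lift hN₀ hS h (inflV hex _ z) (inflV_mem hex _ z)
  exact ⟨inflU hex _ y hy, inflV_inj hex _ hyz⟩

private noncomputable def inflSC (hex : RData N₀ π)
    (S : ShortComplex (ModuleCat.{u} B)) : ShortComplex (ModuleCat.{u} C) :=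
  ShortComplex.mk (inflG hex S.f) (inflG hex S.g) (by
    apply ConcreteCategory.hom_ext
    intro x
    apply inflV_inj hex
    exact congrArg (fun f => f.hom (inflV hex _ x)) S.zero)

private theorem inflSC_exact (hex : RData N₀ π) (hN₀ : 0 < N₀)
    {S : ShortComplex (ModuleCat.{u} B)} (hS : S.ShortExact)
    (h : FX hex S.X₁) : (inflSC hex S).ShortExact := by
  have hf : Function.Injective S.f.hom := (ModuleCat.mono_iff_injective _).1 hS.mono_f
  have hE := (ShortComplex.ShortExact.moduleCat_exact_iff_function_exact _).1 hS.exact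
  refine ModuleCat.shortComplex_shortExact _ ?_ ?_ ?_
  · intro y
    constructor
    · intro hy
      have h1 : S.g.hom (inflV hex _ y) = 0 := congrArg (inflV hex _) hy
      obtain ⟨x, hx⟩ := (hE (inflV hex _ y)).1 h1
      have hx' : S.f.hom x = inflV hex _ y := hx
      refine ⟨inflU hex _ x ?_, inflV_inj hex _ hx⟩
      change hex.X • x = 0
      apply hf
      rw [map_smul, hx', map_zero]
      exact inflV_mem hex _ y
    · rintro ⟨x, rfl⟩
      apply inflV_inj hex
      exact congrArg (fun f => f.hom (inflV hex _ x)) S.zero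
  · intro x y hxy
    apply inflV_inj hex
    apply hf
    exact congrArg (inflV hex _) hxy
  · intro z
    exact infl_surj hex hN₀ hS h z

private theorem infl_finite (hex : RData N₀ π)
    (N : ModuleCat.{u} B) [Module.Finite B N] : Module.Finite C (inflM hex N) := by
  have hB : IsNoetherianRing B := isNoetherian_of_tower k (inferInstance : IsNoetherian k B)
  have h1 : Module.Finite B (inflS hex N) := inferInstance
  have : RingHomSurjective ((π : B →ₐ[k] C) : B →+* C) := ⟨hex.surj⟩
  let g : inflS hex N →ₛₗ[((π : B →ₐ[k] C) : B →+* C)] inflM hex N :=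
    { toFun := fun x => x
      map_add' := fun _ _ => rfl
      map_smul' := fun b x => (inflS_act' hex N (Function.surjInv_eq hex.surj (π b)) x).symm }
  exact Module.Finite.of_surjective g (fun x => ⟨x, rfl⟩)

private noncomputable def inflTl (hex : RData N₀ π)
    (N : ModuleCat.{u} B) (g : trivObj k B ⟶ N) : trivObj k C →ₗ[C] inflM hex N where
  toFun c := inflU hex N (g.hom (show trivObj k B from (show k from c))) (by
    change hex.X • _ = _
    rw [← map_smul, infl_triv hex, map_zero])
  map_add' c d := inflV_inj hex N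
    (map_add g.hom (show trivObj k B from (show k from c)) (show trivObj k B from (show k from d)))
  map_smul' c x := inflV_inj hex N (by
    refine Eq.trans ?_ (map_smul g.hom (Function.surjInv hex.surj c)
      (show trivObj k B from (show k from x)))
    change g.hom (show trivObj k B from Coalgebra.counit (R := k) c * (show k from x)) =
      g.hom (show trivObj k B from
        Coalgebra.counit (R := k) (Function.surjInv hex.surj c) * (show k from x))
    have h1 : Coalgebra.counit (R := k) (π (Function.surjInv hex.surj c)) =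
      Coalgebra.counit (R := k) (Function.surjInv hex.surj c) := aug_of_bialg π _
    rw [Function.surjInv_eq hex.surj c] at h1
    rw [h1])

private theorem infl_alg {𝒞 : Type*} [Category 𝒞] [Abelian 𝒞] [HasExt.{u} 𝒞]
    {S₁ S₂ : ShortComplex 𝒞} (h₁ : S₁.ShortExact) (h₂ : S₂.ShortExact) (f : S₁ ⟶ S₂) {X : 𝒞}
    {n : ℕ} (a : Ext X S₁.X₃ n) (b : Ext X S₂.X₃ n)
    (hab : a.comp (Ext.mk₀ f.τ₃) (add_zero n) = b) (x : Ext X S₂.X₁ (n + 1))
    (hx : b.comp h₂.extClass rfl = x) :
    (a.comp h₁.extClass rfl).comp (Ext.mk₀ f.τ₁) (add_zero (n + 1)) = x := by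
  rw [Ext.comp_assoc_of_third_deg_zero, ShortComplex.ShortExact.extClass_naturality h₁ h₂ f,
    ← Ext.comp_assoc_of_second_deg_zero, hab, hx]

private theorem infl_main (hex : RData N₀ π) (hN₀ : 0 < N₀) (n : ℕ) :
    ∀ (N : ModuleCat.{u} B), Module.Finite B N → FX hex N →
      ∀ x : Ext (trivObj k B) N n, ∃ y : Ext (trivObj k C) (inflM hex N) n,
        (rs (π : B →ₐ[k] C) (aug_of_bialg π) y).comp (Ext.mk₀ (inflF hex N)) (add_zero n) = x := by
  induction n with
  | zero =>
    intro N hNf hN x
    obtain ⟨g, rfl⟩ := (Ext.mk₀_bijective _ _).2 x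
    refine ⟨Ext.mk₀ (ConcreteCategory.ofHom (C := ModuleCat.{u} C) (X := trivObj k C)
      (Y := inflM hex N) (inflTl hex N g)), ?_⟩
    rw [rs, Ext.mapExactFunctor_mk₀, Ext.mk₀_comp_mk₀, Ext.mk₀_comp_mk₀]
    rfl
  | succ n ih =>
    intro N hNf hN x
    have hB : IsNoetherianRing B := isNoetherian_of_tower k (inferInstance : IsNoetherian k B)
    obtain ⟨I, j, hj, hIi, hIf, hIa⟩ := exists_emb hex hN₀ N hNf
    let p : I ⟶ ModuleCat.of B (I ⧸ LinearMap.range j.hom) :=
      ModuleCat.ofHom (LinearMap.range j.hom).mkQ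
    have w : j ≫ p = 0 := by
      ext x
      exact (Submodule.Quotient.mk_eq_zero _).2 ⟨x, rfl⟩
    have hS : (ShortComplex.mk j p w).ShortExact :=
      ModuleCat.shortComplex_shortExact _ (fun y => by
        refine (Submodule.Quotient.mk_eq_zero (LinearMap.range j.hom) (x := y)).trans ?_
        rfl) hj (Submodule.mkQ_surjective _)
    have hQf : Module.Finite B (ModuleCat.of B (I ⧸ LinearMap.range j.hom)) :=
      inferInstanceAs (Module.Finite B (I ⧸ LinearMap.range j.hom))
    have hQa : FX hex (ModuleCat.of B (I ⧸ LinearMap.range j.hom)) :=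
      FX.of_ses hN₀ hS hN hIa
    obtain ⟨h, hh⟩ := Ext.covariant_sequence_exact₁ (trivObj k B) hS x
      (Ext.eq_zero_of_injective _) rfl
    obtain ⟨h', hh'⟩ := ih _ hQf hQa h
    have hSC := inflSC_exact hex hN₀ hS hN
    refine ⟨h'.comp hSC.extClass rfl, ?_⟩
    let τ : (inflSC hex (ShortComplex.mk j p w)).map (res (π : B →ₐ[k] C)) ⟶
        ShortComplex.mk j p w :=
      { τ₁ := inflF hex N
        τ₂ := inflF hex I
        τ₃ := inflF hex (ModuleCat.of B (I ⧸ LinearMap.range j.hom))
        comm₁₂ := rfl
        comm₂₃ := rfl }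
    have e1 : rs (π : B →ₐ[k] C) (aug_of_bialg π) (h'.comp hSC.extClass rfl) =
        (rs (π : B →ₐ[k] C) (aug_of_bialg π) h').comp
          (hSC.map_of_exact (res (π : B →ₐ[k] C))).extClass rfl := by
      refine (rs_comp (π : B →ₐ[k] C) (aug_of_bialg π) h' hSC.extClass rfl).trans ?_
      exact congrArg (fun t => Ext.comp (rs (π : B →ₐ[k] C) (aug_of_bialg π) h') t rfl)
        (Ext.mapExactFunctor_extClass (res (π : B →ₐ[k] C)) hSC)
    refine (congrArg (fun t => Ext.comp t (Ext.mk₀ (inflF hex N)) (add_zero (n + 1))) e1).trans ?_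
    exact infl_alg (hSC.map_of_exact (res (π : B →ₐ[k] C))) hS τ
      (rs (π : B →ₐ[k] C) (aug_of_bialg π) h') h hh' x hh

theorem inflR (hex : RData N₀ π) (hN₀ : 0 < N₀)
    (N : ModuleCat.{u} B) [Module.Finite B N] (hN : FX hex N) :
    ∃ (M : ModuleCat.{u} C) (f : (res (π : B →ₐ[k] C)).obj M ⟶ N), Module.Finite C M ∧
      ∀ (n : ℕ) (x : Ext (trivObj k B) N n), ∃ y : Ext (trivObj k C) M n,
        (rs (π : B →ₐ[k] C) (aug_of_bialg π) y).comp (Ext.mk₀ f) (add_zero n) = x :=
  ⟨inflM hex N, inflF hex N, infl_finite hex N, fun n x =>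
    infl_main hex hN₀ n N inferInstance hN x⟩

/-- Consequence: the inflated family generates `Ext_B(k, N)` eventually. -/
theorem inflR_evGen (hex : RData N₀ π) (hN₀ : 0 < N₀) {r : ℕ} (ζ : Fam k C (Fin r))
    (hζ : ∀ M : ModuleCat.{u} C, Module.Finite C M → ζ.EvGen M) (N : ModuleCat.{u} B)
    [Module.Finite B N] (hN : FX hex N) :
    (ζ.res (π : B →ₐ[k] C) (aug_of_bialg π)).EvGen N := by
  obtain ⟨M, f, hM, hy⟩ := inflR hex hN₀ N hN
  obtain ⟨n₀, hn₀⟩ := hζ M hM
  refine ⟨n₀, fun n hn => ?_⟩
  rw [eq_top_iff]
  intro x _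
  obtain ⟨y, rfl⟩ := hy n x
  let W : Submodule k (Ext (trivObj k C) M n) :=
    { carrier := {y | (rs (π : B →ₐ[k] C) (aug_of_bialg π) y).comp (Ext.mk₀ f) (add_zero n) ∈
        (ζ.res (π : B →ₐ[k] C) (aug_of_bialg π)).gen N n}
      add_mem' := fun {a b} ha hb => by
        rw [Set.mem_ofPred_eq, rs_add, Ext.add_comp]
        exact add_mem ha hb
      zero_mem' := by
        rw [Set.mem_ofPred_eq, rs_zero, Ext.zero_comp]
        exact zero_mem _
      smul_mem' := fun c a ha => by
        rw [Set.mem_ofPred_eq, rs_smul, Ext.smul_comp]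
        exact Submodule.smul_mem _ c ha }
  have hW : ζ.gen M n ≤ W := by
    rw [Fam.gen_le_iff]
    intro i m h z
    change (rs (π : B →ₐ[k] C) (aug_of_bialg π) ((ζ.cls i).comp z h)).comp (Ext.mk₀ f)
      (add_zero n) ∈ (ζ.res (π : B →ₐ[k] C) (aug_of_bialg π)).gen N n
    rw [← rsE_comp, Ext.comp_assoc_of_third_deg_zero]
    exact (ζ.res (π : B →ₐ[k] C) (aug_of_bialg π)).mem_gen i h _
  rw [hn₀ n hn] at hW
  exact (show y ∈ W from hW Submodule.mem_top)

end

end Pool.Agent.Helper90.R1
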