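import Pool.Agent.Helper90.R1.FX

/-!
# Project R1: `K ⊗ M` is free over `k[X]` if `K` is and `X M = 0`

Let `ρ = (id ⊗ π) Δ : B → B ⊗ C`. The map `Φ(b ⊗ c) = ρ(b) (1 ⊗ c)` satisfies
`Φ(∑ X₁ ⊗ S(π X₂)) = X ⊗ 1`, and `z = ∑ X₁ ⊗ S(π X₂)` lies in the kernel of `π ⊗ id`, which is
`X B ⊗ C`; so `X ⊗ 1 = ρ(X) v`. Hence `X ⊗ 1 = X ∘ V` on `K ⊗ M`, the rank of `X` on `K ⊗ M` is at
least the one of `X ⊗ 1`, and `K ⊗ M` is free by a count of dimensions.
-/

set_option linter.unusedSectionVars false
set_option autoImplicit false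

open CategoryTheory CategoryTheory.Abelian CategoryTheory.Limits
open scoped ModuleCat TensorProduct
open Pool.Agent.Helper59.FG Pool.Agent.Helper90.FC

namespace Pool.Agent.Helper90.R1

universe u

section

variable {k : Type u} [Field k] {B C : Type u} [Ring B] [Ring C] [HopfAlgebra k B]
variable [HopfAlgebra k C] {N : ℕ} {π : B →ₐc[k] C}

/-- The algebra map `(id ⊗ π) Δ`. -/
private noncomputable def rhoX (π : B →ₐc[k] C) : B →ₐ[k] B ⊗[k] C :=
  (Algebra.TensorProduct.map (AlgHom.id k B) (π : B →ₐ[k] C)).comp (Bialgebra.comulAlgHom k B)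

private theorem rhoX_apply (π : B →ₐc[k] C) (b : B) :
    rhoX π b = (TensorProduct.map LinearMap.id (π : B →ₐ[k] C).toLinearMap)
      (Coalgebra.comul (R := k) b) := rfl

/-- The map `b ⊗ c ↦ ρ(b) (1 ⊗ c)`. -/
private noncomputable def PhiX (π : B →ₐc[k] C) : B ⊗[k] C →ₗ[k] B ⊗[k] C :=
  TensorProduct.lift ((LinearMap.mul k (B ⊗[k] C)).compl₁₂
      (rhoX π).toLinearMap (TensorProduct.mk k B C 1))

private theorem PhiX_tmul (π : B →ₐc[k] C) (b : B) (c : C) :
    PhiX π (b ⊗ₜ[k] c) = rhoX π b * (1 ⊗ₜ[k] c) := by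
  simp [PhiX]

/-- The element `∑ b₁ ⊗ S(π b₂)`. -/
private noncomputable def zX (π : B →ₐc[k] C) : B →ₗ[k] B ⊗[k] C :=
  TensorProduct.map LinearMap.id (HopfAlgebra.antipode k ∘ₗ (π : B →ₐ[k] C).toLinearMap) ∘ₗ
    Coalgebra.comul

private theorem PhiX_zX (π : B →ₐc[k] C) (b : B) : PhiX π (zX π b) = b ⊗ₜ[k] 1 := by
  -- `T (b ⊗ (b' ⊗ b'')) = b ⊗ π(b') S(π(b''))`
  let m : B ⊗[k] B →ₗ[k] C := LinearMap.mul' k C ∘ₗ TensorProduct.map
    (π : B →ₐ[k] C).toLinearMap (HopfAlgebra.antipode k ∘ₗ (π : B →ₐ[k] C).toLinearMap)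
  let T : B ⊗[k] (B ⊗[k] B) →ₗ[k] B ⊗[k] C := m.lTensor B
  have h1 : ∀ z : B ⊗[k] B, PhiX π (TensorProduct.map LinearMap.id
      (HopfAlgebra.antipode k ∘ₗ (π : B →ₐ[k] C).toLinearMap) z) =
      T (TensorProduct.assoc k B B B ((Coalgebra.comul (R := k) (A := B)).rTensor B z)) := by
    intro z
    induction z using TensorProduct.induction_on with
    | zero => simp
    | add x y hx hy => simp only [map_add, hx, hy]
    | tmul x y =>
      rw [TensorProduct.map_tmul, PhiX_tmul, rhoX_apply, LinearMap.rTensor_tmul]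
      generalize Coalgebra.comul (R := k) x = w
      induction w using TensorProduct.induction_on with
      | zero => simp
      | add u v hu hv => rw [map_add, add_mul, hu, hv, TensorProduct.add_tmul, map_add, map_add]
      | tmul u v => simp [T, m]
  have h2 : ∀ z : B ⊗[k] B, T ((Coalgebra.comul (R := k) (A := B)).lTensor B z) =
      TensorProduct.map LinearMap.id (Algebra.linearMap k C)
        ((Coalgebra.counit (R := k) (A := B)).lTensor B z) := by
    intro z
    induction z using TensorProduct.induction_on with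
    | zero => simp
    | add x y hx hy => simp only [map_add, hx, hy]
    | tmul x y =>
      rw [LinearMap.lTensor_tmul, LinearMap.lTensor_tmul, LinearMap.lTensor_tmul,
        TensorProduct.map_tmul]
      congr 1
      have h3 : m (Coalgebra.comul (R := k) y) = LinearMap.mul' k C
          ((HopfAlgebra.antipode k (A := C)).lTensor C (Coalgebra.comul (R := k) (π y))) := by
        have h4 : Coalgebra.comul (R := k) (π y) = TensorProduct.map (π : B →ₐ[k] C).toLinearMap
            (π : B →ₐ[k] C).toLinearMap (Coalgebra.comul (R := k) y) :=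
          (CoalgHomClass.map_comp_comul_apply π y).symm
        rw [h4]
        generalize Coalgebra.comul (R := k) y = w
        induction w using TensorProduct.induction_on with
        | zero => simp
        | add u v hu hv => simp only [map_add, hu, hv]
        | tmul u v => rfl
      have h5 := LinearMap.congr_fun (HopfAlgebra.mul_antipode_lTensor_comul (R := k) (A := C))
        (π y)
      simp only [LinearMap.comp_apply] at h5
      rw [h3, h5]
      congr 1
      exact aug_of_bialg π y
  have h3 := LinearMap.congr_fun (Coalgebra.coassoc (R := k) (A := B)) b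
  simp only [LinearMap.comp_apply, LinearEquiv.coe_coe] at h3
  have h4 : PhiX π (zX π b) = T (TensorProduct.assoc k B B B
      ((Coalgebra.comul (R := k) (A := B)).rTensor B (Coalgebra.comul (R := k) b))) := h1 _
  rw [h4, h3, h2]
  have h5 := LinearMap.congr_fun (Coalgebra.lTensor_counit_comp_comul (R := k) (A := B)) b
  rw [LinearMap.comp_apply] at h5
  rw [h5]
  simp

variable [Module.Finite k B]

/-- `X ⊗ 1 = ρ(X) v` -/
private theorem exists_v (R : RData N π) : ∃ v : B ⊗[k] C, R.X ⊗ₜ[k] (1 : C) = rhoX π R.X * v := by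
  have hexact : Function.Exact R.lX (π : B →ₐ[k] C).toLinearMap := by
    intro b
    have h : LinearMap.range R.lX = LinearMap.ker (π : B →ₐ[k] C).toLinearMap := by
      rw [R.range_lX, R.range_rX]
    constructor
    · intro hb
      have h1 : b ∈ LinearMap.range R.lX := by rw [h]; exact hb
      exact h1
    · intro hb
      have h1 : b ∈ LinearMap.ker (π : B →ₐ[k] C).toLinearMap := by rw [← h]; exact hb
      exact h1
  have hex := rTensor_exact C hexact R.surj
  have h0 : (π : B →ₐ[k] C).toLinearMap.rTensor C (zX π R.X) = 0 := by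
    have h1 : ∀ z : B ⊗[k] B, (π : B →ₐ[k] C).toLinearMap.rTensor C
        (TensorProduct.map LinearMap.id (HopfAlgebra.antipode k ∘ₗ (π : B →ₐ[k] C).toLinearMap)
          z) = (HopfAlgebra.antipode k (A := C)).lTensor C
            (TensorProduct.map (π : B →ₐ[k] C).toLinearMap (π : B →ₐ[k] C).toLinearMap z) := by
      intro z
      induction z using TensorProduct.induction_on with
      | zero => simp
      | add x y hx hy => simp only [map_add, hx, hy]
      | tmul x y => rfl
    have h2 : TensorProduct.map (π : B →ₐ[k] C).toLinearMap (π : B →ₐ[k] C).toLinearMap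
        (Coalgebra.comul (R := k) R.X) = Coalgebra.comul (R := k) (π R.X) :=
      CoalgHomClass.map_comp_comul_apply π R.X
    have h3 : π R.X = 0 := (R.ker _).2 ⟨1, by rw [one_mul]⟩
    refine (h1 _).trans ?_
    rw [h2, h3, map_zero, map_zero]
  obtain ⟨z', hz'⟩ := (hex _).1 h0
  refine ⟨PhiX π z', ?_⟩
  rw [← PhiX_zX, ← hz']
  clear hz'
  induction z' using TensorProduct.induction_on with
  | zero => simp
  | add x y hx hy => rw [map_add, map_add, hx, hy, map_add, mul_add]
  | tmul x y =>
    rw [LinearMap.rTensor_tmul, PhiX_tmul, PhiX_tmul]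
    change rhoX π (R.X * x) * _ = _
    rw [map_mul, mul_assoc]

/-- The action of `B ⊗ B` on `K ⊗ M`. -/
private noncomputable def actX (K M : ModuleCat.{u} B) :
    B ⊗[k] B →ₐ[k] Module.End k (K ⊗[k] M) :=
  (Module.endTensorEndAlgHom (R := k) (S := k) (A := k) (M := K) (N := M)).comp
    (Algebra.TensorProduct.map (Algebra.lsmul k k K) (Algebra.lsmul k k M))

private theorem actX_zero (R : RData N π) (K M : ModuleCat.{u} B) (hM : ∀ m : M, R.X • m = 0)
    (t : B ⊗[k] B) (ht : (π : B →ₐ[k] C).toLinearMap.lTensor B t = 0) :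
    actX (k := k) K M t = 0 := by
  have hexact : Function.Exact R.rX (π : B →ₐ[k] C).toLinearMap := by
    intro b
    constructor
    · intro hb
      have h1 : b ∈ LinearMap.range R.rX := by rw [R.range_rX]; exact hb
      exact h1
    · intro hb
      have h1 : b ∈ LinearMap.ker (π : B →ₐ[k] C).toLinearMap := by rw [← R.range_rX]; exact hb
      exact h1
  obtain ⟨t', rfl⟩ := (lTensor_exact B hexact R.surj _).1 ht
  clear ht
  induction t' using TensorProduct.induction_on with
  | zero => rw [map_zero, map_zero]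
  | add x y hx hy => rw [map_add, map_add, hx, hy, add_zero]
  | tmul x y =>
    rw [LinearMap.lTensor_tmul]
    refine TensorProduct.ext' fun κ m => ?_
    refine (tact_tmul k K M (x ⊗ₜ[k] (y * R.X)) κ m).trans ?_
    rw [TensorProduct.map_tmul]
    change (x • κ) ⊗ₜ[k] ((y * R.X) • m) = 0
    rw [mul_smul, hM, smul_zero, TensorProduct.tmul_zero]

/-- `X ⊗ 1 = X ∘ V` on `K ⊗ M` -/
private theorem exists_V (R : RData N π) (K M : ModuleCat.{u} B) (hM : ∀ m : M, R.X • m = 0) :
    ∃ V : Module.End k (K ⊗[k] M), (XL R K).rTensor M = tact k K M R.X * V := by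
  obtain ⟨v, hv⟩ := exists_v R
  obtain ⟨V, rfl⟩ : ∃ V : B ⊗[k] B, (π : B →ₐ[k] C).toLinearMap.lTensor B V = v :=
    LinearMap.lTensor_surjective B R.surj v
  refine ⟨actX (k := k) K M V, ?_⟩
  have hmul : ∀ t t' : B ⊗[k] B, (π : B →ₐ[k] C).toLinearMap.lTensor B (t * t') =
      (π : B →ₐ[k] C).toLinearMap.lTensor B t * (π : B →ₐ[k] C).toLinearMap.lTensor B t' := by
    intro t t'
    exact map_mul (Algebra.TensorProduct.map (AlgHom.id k B) (π : B →ₐ[k] C)) t t'
  have h1 : actX (k := k) K M (R.X ⊗ₜ[k] 1 - Coalgebra.comul (R := k) R.X * V) = 0 := by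
    refine actX_zero R K M hM _ ?_
    rw [map_sub, hmul, sub_eq_zero, LinearMap.lTensor_tmul]
    have h2 : (π : B →ₐ[k] C).toLinearMap 1 = 1 := map_one (π : B →ₐ[k] C)
    rw [h2, hv]
    rfl
  rw [map_sub, map_mul, sub_eq_zero] at h1
  refine Eq.trans ?_ h1
  refine TensorProduct.ext' fun κ m => ?_
  refine Eq.trans ?_ (tact_tmul k K M (R.X ⊗ₜ[k] (1 : B)) κ m).symm
  rw [TensorProduct.map_tmul, LinearMap.rTensor_tmul]
  change (R.X • κ) ⊗ₜ[k] m = (R.X • κ) ⊗ₜ[k] ((1 : B) • m)
  rw [one_smul]

/-- `K ⊗ M` is free over `k[X]` if `K` is and `X M = 0`. -/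
theorem FX.tens (R : RData N π) (hN : 0 < N) (K M : ModuleCat.{u} B) [Module.Finite B K]
    [Module.Finite B M] (hK : FX R K) (hM : ∀ m : M, R.X • m = 0) :
    FX R ((tensFunctor k M).obj K) := by
  have k1 : Module.Finite k K := Module.Finite.trans B K
  have k2 : Module.Finite k M := Module.Finite.trans B M
  obtain ⟨V, hV⟩ := exists_V R K M hM
  let T : Module.End k (K ⊗[k] M) := tact k K M R.X
  have hT : T ^ N = 0 := by
    change (tact k K M R.X) ^ N = 0
    rw [← map_pow, R.nilp, map_zero]
  have h1 : LinearMap.range ((XL R K).rTensor M) ≤ LinearMap.range T := by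
    rw [hV]
    exact LinearMap.range_comp_le_range _ _
  have h2 := Submodule.finrank_mono h1
  have h3 := LinearMap.finrank_range_add_finrank_ker T
  have h4 := LinearMap.finrank_range_add_finrank_ker ((XL R K).rTensor M)
  have h5 : Module.finrank k (LinearMap.ker ((XL R K).rTensor M)) =
      Module.finrank k (LinearMap.ker (XL R K)) * Module.finrank k M := by
    have h6 : LinearMap.ker ((XL R K).rTensor M) =
        LinearMap.range ((LinearMap.ker (XL R K)).subtype.rTensor M) := by
      have h7 : Function.Exact (LinearMap.ker (XL R K)).subtype (XL R K) :=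
        LinearMap.exact_subtype_ker_map _
      exact LinearMap.exact_iff.1 (Module.Flat.rTensor_exact M h7)
    rw [h6, LinearMap.finrank_range_of_inj
      (Module.Flat.rTensor_preserves_injective_linearMap _ (Submodule.injective_subtype _)),
      Module.finrank_tensorProduct]
  have h6 := (ker_le_iff hN (XL R K) (XL_nilp R K)).1 ((FX_iff R K).1 hK)
  have h7 : Module.finrank k (K ⊗[k] M) = Module.finrank k K * Module.finrank k M :=
    Module.finrank_tensorProduct
  have h8 := finrank_le_mul T hT
  have h9 : Module.finrank k (LinearMap.ker T) ≤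
      Module.finrank k (LinearMap.ker (XL R K)) * Module.finrank k M := by omega
  have h10 : LinearMap.ker T ≤ LinearMap.range (T ^ (N - 1)) := by
    rw [ker_le_iff hN T hT]
    apply le_antisymm h8
    rw [h7, h6, mul_assoc]
    exact Nat.mul_le_mul_left N h9
  intro z hz
  obtain ⟨z', hz'⟩ := h10 (show (show K ⊗[k] M from z) ∈ LinearMap.ker T from hz)
  refine ⟨z', ?_⟩
  have h11 : T ^ (N - 1) = tact k K M (R.X ^ (N - 1)) := (map_pow (tact k K M) _ _).symm
  rw [h11] at hz'
  exact hz'.symm

end

end Pool.Agent.Helper90.R1
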