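import Pool.Agent.Helper90.R1.Desc
import Pool.Agent.Helper90.R1.InflR
import Pool.Agent.Helper90.R1.TenX
import Pool.Agent.Helper90.R1.FXK
import Pool.Agent.Helper90.FC.Climb

/-!
# Project R1: the main step

`ChainR` and `FGE k C` imply `FGE k B`.
-/

set_option linter.unusedSectionVars false
set_option autoImplicit false

open CategoryTheory CategoryTheory.Abelian CategoryTheory.Limits
open scoped ModuleCat TensorProduct
open Pool.Agent.Helper59.FG Pool.Agent.Helper90.FC

namespace Pool.Agent.Helper90.R1

universe u

section

variable {k : Type u} [Field k] {B C : Type u} [Ring B] [Ring C] [HopfAlgebra k B]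
variable [HopfAlgebra k C] {p N : ℕ} {π : B →ₐc[k] C}

/-- the elements killed by `X` -/
private def kerX (R : RData N π) (M : ModuleCat.{u} B) : Submodule B M where
  carrier := {x | R.X • x = 0}
  add_mem' {x y} hx hy := by
    change R.X • (x + y) = 0
    rw [smul_add, show R.X • x = 0 from hx, show R.X • y = 0 from hy, add_zero]
  zero_mem' := smul_zero _
  smul_mem' b x hx := by
    obtain ⟨b', hb'⟩ := R.norm b
    change R.X • (b • x) = 0
    rw [← mul_smul, hb', mul_smul, show R.X • x = 0 from hx, smul_zero]

variable [Module.Finite k B] [Module.Finite k C]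

/-- The tensor product of finite modules is finite. -/
private theorem MainR_finT (K Y : ModuleCat.{u} B) (hK : Module.Finite B K)
    (hY : Module.Finite B Y) : Module.Finite B ((tensFunctor k Y).obj K) := by
  have h1 : Module.Finite k K := Module.Finite.trans B K
  have h2 : Module.Finite k Y := Module.Finite.trans B Y
  have h3 : Module.Finite k (K ⊗[k] Y) := inferInstance
  have h4 : Module.Finite k ((tensFunctor k Y).obj K) := by
    let L : K ⊗[k] Y →ₗ[k] ((tensFunctor k Y).obj K) :=
      { toFun := fun z => (show TT k K Y from z)
        map_add' := fun _ _ => rfl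
        map_smul' := fun c z => by
          have h5 : tact k K Y (algebraMap k B c) = algebraMap k _ c := (tact k K Y).commutes c
          exact (congr($h5 z)).symm }
    exact Module.Finite.of_surjective L fun z => ⟨z, rfl⟩
  exact Module.Finite.of_restrictScalars_finite k B _

theorem main_R (R : RData N π) (hN : 2 ≤ N) (hp : 2 ≤ p) (hC : FGE k C) (ch : ChainR p R) :
    FGE k B := by
  obtain ⟨K, Θ, hΘ, hd, hev⟩ := descent hN hp hC ch
  obtain ⟨r, ζ, hζ⟩ := hC
  have hK : 0 < p ^ K := by positivity
  let η : Fam k B (Fin 1) :=
    { deg := fun _ => 2 * p ^ K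
      cls := fun _ => clsT k (2 * p ^ K) Θ hd
      pos := fun _ => by positivity
      even := fun _ => even_two_mul _ }
  let Z := (ζ.res (π : B →ₐ[k] C) (aug_of_bialg π)).sum η
  have hA : ∀ M : ModuleCat.{u} B, Module.Finite B M → (∀ m : M, R.X • m = 0) → Z.EvGen M := by
    intro M hM hXM
    obtain ⟨D⟩ := KData.nonempty (clsT k (2 * p ^ K) Θ hd) (by positivity)
    have h1 : FX R D.K := FX_KData R hN hK hΘ hd hev D
    have hfK := D.finK
    have h2 : FX R ((tensFunctor k M).obj D.K) := FX.tens R (by omega) D.K M h1 hXM
    have h3 : Module.Finite B ((tensFunctor k M).obj D.K) := MainR_finT D.K M hfK hM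
    have h4 := inflR_evGen R (by omega) ζ hζ _ h2
    exact climb Z (Sum.inr 0) D M (Fam.evGen_sum_left _ _ h4)
  refine FGE.of_finite Z ?_
  have hB : ∀ (n : ℕ) (M : ModuleCat.{u} B), Module.Finite B M → Module.finrank k M = n →
      Z.EvGen M := by
    intro n
    induction n using Nat.strong_induction_on with
    | _ n ih =>
      intro M hM hn
      by_cases hX : ∀ m : M, R.X • m = 0
      · exact hA M hM hX
      · push Not at hX
        obtain ⟨m, hm⟩ := hX
        have hkM : Module.Finite k M := Module.Finite.trans B M
        have hBn : IsNoetherianRing B := isNoetherian_of_tower k (inferInstance : IsNoetherian k B)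
        let W := kerX R M
        let i : ModuleCat.of B W ⟶ M := ModuleCat.ofHom W.subtype
        let q : M ⟶ ModuleCat.of B (M ⧸ W) := ModuleCat.ofHom W.mkQ
        have w : i ≫ q = 0 := by
          ext x
          exact (Submodule.Quotient.mk_eq_zero _).2 x.2
        have hS : (ShortComplex.mk i q w).ShortExact :=
          ModuleCat.shortComplex_shortExact _ (LinearMap.exact_subtype_mkQ W)
            (Submodule.injective_subtype _) W.mkQ_surjective
        have f1 : Module.Finite B (ShortComplex.mk i q w).X₁ :=
          inferInstanceAs (Module.Finite B W)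
        have f2 : Module.Finite B (ShortComplex.mk i q w).X₂ := hM
        have f3 : Module.Finite B (ShortComplex.mk i q w).X₃ :=
          inferInstanceAs (Module.Finite B (M ⧸ W))
        have g1 : Z.EvGen (ShortComplex.mk i q w).X₁ :=
          hA _ f1 fun x => Subtype.ext x.2
        have hlt : Module.finrank k (ModuleCat.of B (M ⧸ W)) < n := by
          -- a nonzero element killed by `X`
          have hne : ∃ x : M, x ≠ 0 ∧ R.X • x = 0 := by
            have h1 : ∃ j, R.X ^ j • m = 0 := ⟨N, by rw [R.nilp, zero_smul]⟩
            classical
            let j := Nat.find h1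
            have hj : R.X ^ j • m = 0 := Nat.find_spec h1
            have hj0 : j ≠ 0 := by
              intro h0
              rw [h0, pow_zero, one_smul] at hj
              rw [hj, smul_zero] at hm
              exact hm rfl
            refine ⟨R.X ^ (j - 1) • m, Nat.find_min h1 (by omega), ?_⟩
            rw [← mul_smul, ← pow_succ', (by omega : j - 1 + 1 = j), hj]
          obtain ⟨x, hx0, hx⟩ := hne
          let T : M →ₗ[k] (ModuleCat.of B (M ⧸ W)) := q.hom.restrictScalars k
          have h2 := LinearMap.finrank_range_add_finrank_ker T
          have h3 : LinearMap.range T = ⊤ := LinearMap.range_eq_top.2 W.mkQ_surjective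
          rw [h3, finrank_top] at h2
          have h4 : 0 < Module.finrank k (LinearMap.ker T) := by
            have h5 : Nontrivial (LinearMap.ker T) := by
              refine ⟨⟨⟨x, ?_⟩, 0, fun h => hx0 (congrArg Subtype.val h)⟩⟩
              exact (Submodule.Quotient.mk_eq_zero W).2 hx
            exact Module.finrank_pos
          omega
        have g3 : Z.EvGen (ShortComplex.mk i q w).X₃ := ih _ hlt _ f3 rfl
        exact Fam.evGen_mid Z hS g1 g3
  exact fun M hM => hB _ M hM rfl

end

end Pool.Agent.Helper90.R1
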