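import Pool.Agent.Helper90.R1.Defs
import Pool.Agent.Helper90.FC.EvLem

/-!
# Project R1: the sequence of iterated powers (data)

`ChainR p π R`: an element `lam` of the dual of `B` whose coboundary comes from `C`, and elements
`x m` of degree `2 p^m` of the cobar algebra of `B` with
`dd (x m) = lam · κ m + w m`, `κ m` and `w m` from the cobar algebra of `C`, such that the evaluation
of `x m` at `X^(N-1), X, X^(N-1), …` is `1`.
-/

set_option linter.unusedSectionVars false
set_option autoImplicit false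

open CategoryTheory CategoryTheory.Abelian CategoryTheory.Limits
open scoped ModuleCat TensorProduct
open Pool.Agent.Helper59.FG Pool.Agent.Helper90.FC

namespace Pool.Agent.Helper90.R1

universe u

section

variable {k : Type u} [Field k] {B C : Type u} [Ring B] [Ring C] [HopfAlgebra k B]
variable [HopfAlgebra k C] [Module.Finite k B] [Module.Finite k C]

/-- The cobar algebra of `C` inside the one of `B`. -/
noncomputable abbrev PT (π : B →ₐc[k] C) : TA k (HD k C) →ₐ[k] TA k (HD k B) :=
  mapT (HDmap π : HD k C →ₗ[k] HD k B)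

structure ChainR (p : ℕ) {N : ℕ} {π : B →ₐc[k] C} (R : RData N π) where
  lam : HD k B
  om : TA k (HD k C)
  om_mem : om ∈ Tn k (HD k C) 2
  lam_dd : dd k (HD k B) (io k lam) = PT π om
  x : ℕ → TA k (HD k B)
  κ : ℕ → TA k (HD k C)
  w : ℕ → TA k (HD k C)
  x_mem : ∀ m, x m ∈ Tn k (HD k B) (2 * p ^ m)
  κ_mem : ∀ m, κ m ∈ Tn k (HD k C) (2 * p ^ m)
  w_mem : ∀ m, w m ∈ Tn k (HD k C) (2 * p ^ m + 1)
  κ_dd : ∀ m, dd k (HD k C) (κ m) = 0
  w_dd : ∀ m, om * κ m + dd k (HD k C) (w m) = 0
  x_dd : ∀ m, dd k (HD k B) (x m) = io k lam * PT π (κ m) + PT π (w m)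
  x_ev : ∀ m, EV k (R.X ^ (N - 1)) R.X (x m) 0 0 = 1

end

end Pool.Agent.Helper90.R1
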