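import Pool.Agent.Helper90.FC.ClsT
import Pool.Agent.Helper90.FC.CobK

/-!
# Project R1: quotients of rank one of Hopf algebras in positive characteristic

`RData N π` (for a homomorphism `π : B → C` of finite-dimensional Hopf algebras): `π` is surjective
with kernel `B X`, `X ^ N = 0`, `dim B = N dim C` and `X b - b X ∈ B X²` for all `b`. (The element
`X` need not be central, nor lie in a proper normal Hopf subalgebra.)

`EV x x'` is the homomorphism from the cobar algebra to the `2 × 2` matrices which sends a letter
`a` to the matrix with entries `a(x)`, `a(x')` off the diagonal: the entry `(0, 0)` of the image of a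
word `a₁ ⋯ a_{2n}` is `a₁(x) a₂(x') a₃(x) ⋯`.
-/

set_option linter.unusedSectionVars false
set_option autoImplicit false

open CategoryTheory CategoryTheory.Abelian CategoryTheory.Limits
open scoped ModuleCat TensorProduct
open Pool.Agent.Helper59.FG Pool.Agent.Helper90.FC

namespace Pool.Agent.Helper90.R1

universe u

section

variable {k : Type u} [Field k] {B C : Type u} [Ring B] [Ring C] [HopfAlgebra k B]
variable [HopfAlgebra k C]

/-- The kernel of `π` is generated by one element `X` with `X ^ N = 0`, `dim B = N dim C`, which is
central modulo `B X²`. -/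
structure RData (N : ℕ) (π : B →ₐc[k] C) where
  X : B
  surj : Function.Surjective π
  ker : ∀ b : B, π b = 0 ↔ ∃ b' : B, b = b' * X
  nilp : X ^ N = 0
  dim : Module.finrank k B = N * Module.finrank k C
  cen : ∀ b : B, ∃ b' : B, X * b - b * X = b' * X ^ 2

end

section

variable (k : Type u) [Field k] {A : Type u} [Ring A] [Bialgebra k A] [Module.Finite k A]

/-- The matrix of a letter. -/
def evMat (x x' : A) : HD k A →ₗ[k] Matrix (Fin 2) (Fin 2) k where
  toFun a := !![0, a.ofConv x; a.ofConv x', 0]
  map_add' a b := by
    ext i j
    fin_cases i <;> fin_cases j <;> simp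
  map_smul' c a := by
    ext i j
    fin_cases i <;> fin_cases j <;> simp

/-- Evaluation of words at `x, x', x, x', …`. -/
noncomputable def EV (x x' : A) : TA k (HD k A) →ₐ[k] Matrix (Fin 2) (Fin 2) k :=
  TensorAlgebra.lift k (evMat k x x')

theorem EV_io (x x' : A) (a : HD k A) :
    EV k x x' (io k a) = !![0, a.ofConv x; a.ofConv x', 0] := by
  rw [EV, io, TensorAlgebra.lift_ι_apply]
  rfl

end

end Pool.Agent.Helper90.R1
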