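import Pool.Agent.Helper90.R1.ChainD

/-!
# Project R1: noetherian descent

From `ChainR` and `FGE k C` we obtain a cocycle `Θ` of degree `2 p^K` of the cobar algebra of `B`
whose evaluation at `X^(N-1), X, X^(N-1), …` is `1`.
-/

set_option linter.unusedSectionVars false
set_option autoImplicit false

open CategoryTheory CategoryTheory.Abelian CategoryTheory.Limits
open scoped ModuleCat TensorProduct
open Pool.Agent.Helper59.FG Pool.Agent.Helper90.FC

namespace Pool.Agent.Helper90.R1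

universe u

section

variable {k : Type u} [Field k] {B C : Type u} [Ring B] [Ring C] [HopfAlgebra k B]
variable [HopfAlgebra k C] [Module.Finite k B] [Module.Finite k C]

section aux

variable (k) (A : Type u) [Ring A] [Bialgebra k A] [Module.Finite k A]

/-- the elements of degree `n - 1` -/
private noncomputable def Tp : ℕ → Submodule k (TA k (HD k A))
  | 0 => ⊥
  | n + 1 => Tn k (HD k A) n

variable {A}

private theorem Tp_mul {m n N : ℕ} (h : m + n = N) {a b : TA k (HD k A)} (ha : a ∈ Tp k A m)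
    (hb : b ∈ Tn k (HD k A) n) : a * b ∈ Tp k A N := by
  subst h
  cases m with
  | zero =>
    have h0 : a = 0 := ha
    rw [h0, zero_mul]
    exact zero_mem _
  | succ m =>
    have e : m + 1 + n = (m + n) + 1 := by omega
    rw [e]
    change a * b ∈ Tn k (HD k A) (m + n)
    change a * b ∈ LinearMap.range (TensorAlgebra.ι k (M := HD k A)) ^ (m + n)
    rw [pow_add]
    exact Submodule.mul_mem_mul ha hb

private theorem Tn_mul {m n N : ℕ} (h : m + n = N) {a b : TA k (HD k A)}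
    (ha : a ∈ Tn k (HD k A) m) (hb : b ∈ Tn k (HD k A) n) : a * b ∈ Tn k (HD k A) N := by
  subst h
  change a * b ∈ LinearMap.range (TensorAlgebra.ι k (M := HD k A)) ^ (m + n)
  rw [pow_add]
  exact Submodule.mul_mem_mul ha hb

private theorem dd_Tp {n : ℕ} {a : TA k (HD k A)} (ha : a ∈ Tp k A n) :
    dd k (HD k A) a ∈ Tn k (HD k A) n := by
  cases n with
  | zero =>
    have h0 : a = 0 := ha
    rw [h0, map_zero]
    exact zero_mem _
  | succ n => exact dd_Tn k (HD k A) n a ha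

end aux

variable {p N : ℕ} {π : B →ₐc[k] C} {R : RData N π}

/-- pairs `(κ, w)`, which stand for `lam κ + w` -/
private abbrev Pr (k : Type u) [Field k] (C : Type u) [Ring C] [HopfAlgebra k C]
    [Module.Finite k C] : Type u := TA k (HD k C) × TA k (HD k C)

/-- the boundary of a pair -/
private noncomputable def bd (ch : ChainR p R) : Pr k C →ₗ[k] Pr k C where
  toFun z := (-dd k (HD k C) z.1, ch.om * z.1 + dd k (HD k C) z.2)
  map_add' z z' := by
    ext
    · simp only [Prod.fst_add, map_add, neg_add]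
    · simp only [Prod.fst_add, Prod.snd_add, map_add, mul_add]
      abel
  map_smul' c z := by
    ext
    · simp only [Prod.smul_fst, map_smul, smul_neg, RingHom.id_apply]
    · simp only [Prod.smul_fst, Prod.smul_snd, map_smul, mul_smul_comm, smul_add,
        RingHom.id_apply]

private theorem bd_apply (ch : ChainR p R) (z : Pr k C) :
    bd ch z = (-dd k (HD k C) z.1, ch.om * z.1 + dd k (HD k C) z.2) := rfl

/-- the element given by a pair -/
private noncomputable def toV (ch : ChainR p R) : Pr k C →ₗ[k] TA k (HD k B) where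
  toFun z := io k ch.lam * PT π z.1 + PT π z.2
  map_add' z z' := by
    simp only [Prod.fst_add, Prod.snd_add, map_add, mul_add]
    abel
  map_smul' c z := by
    simp only [Prod.smul_fst, Prod.smul_snd, map_smul, mul_smul_comm, smul_add,
        RingHom.id_apply]

private theorem toV_apply (ch : ChainR p R) (z : Pr k C) :
    toV ch z = io k ch.lam * PT π z.1 + PT π z.2 := rfl

private theorem dd_toV (ch : ChainR p R) (z : Pr k C) :
    dd k (HD k B) (toV ch z) = toV ch (bd ch z) := by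
  rw [toV_apply, toV_apply, bd_apply, map_add, dd_mul, sg_io, ch.lam_dd, map_neg, map_add, map_mul,
    ← mapT_dd, ← mapT_dd]
  noncomm_ring

/-- right multiplication of a pair -/
private noncomputable def rm (r : TA k (HD k C)) : Pr k C →ₗ[k] Pr k C where
  toFun z := (z.1 * r, z.2 * r)
  map_add' z z' := by
    ext
    · simp only [Prod.fst_add, add_mul]
    · simp only [Prod.snd_add, add_mul]
  map_smul' c z := by
    ext
    · simp only [Prod.smul_fst, smul_mul_assoc, RingHom.id_apply]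
    · simp only [Prod.smul_snd, smul_mul_assoc, RingHom.id_apply]

private theorem rm_apply (r : TA k (HD k C)) (z : Pr k C) : rm r z = (z.1 * r, z.2 * r) := rfl

private theorem toV_rm (ch : ChainR p R) (r : TA k (HD k C)) (z : Pr k C) :
    toV ch (rm r z) = toV ch z * PT π r := by
  rw [toV_apply, toV_apply, rm_apply, map_mul, map_mul]
  noncomm_ring

private theorem bd_rm (ch : ChainR p R) {r : TA k (HD k C)} (hr : dd k (HD k C) r = 0)
    (z : Pr k C) : bd ch (rm r z) = rm r (bd ch z) := by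
  rw [bd_apply, bd_apply, rm_apply, rm_apply, dd_mul, dd_mul, hr]
  ext
  · simp
  · simp only [mul_zero, zero_add]
    noncomm_ring

/-- the span of the `y_j r` -/
private noncomputable def Gs (ch : ChainR p R) (n : ℕ) : Submodule k (Pr k C) :=
  Submodule.span k {z | ∃ (j a : ℕ) (r : TA k (HD k C)), r ∈ Tn k (HD k C) a ∧
    dd k (HD k C) r = 0 ∧ 2 * p ^ j + a = n ∧ z = rm r (ch.κ j, ch.w j)}

/-- the boundaries -/
private noncomputable def Bd (ch : ChainR p R) (n : ℕ) : Submodule k (Pr k C) :=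
  ((Tp k C n).prod (Tn k (HD k C) n)).map (bd ch)

private theorem Gs_prop (ch : ChainR p R) {n : ℕ} {z : Pr k C} (hz : z ∈ Gs ch n) :
    z.1 ∈ Tn k (HD k C) n ∧ z.2 ∈ Tn k (HD k C) (n + 1) ∧ dd k (HD k C) z.1 = 0 ∧
      ch.om * z.1 + dd k (HD k C) z.2 = 0 := by
  unfold Gs at hz
  induction hz using Submodule.span_induction with
  | mem z hz =>
    obtain ⟨j, a, r, hr, hd, h, rfl⟩ := hz
    refine ⟨Tn_mul k h (ch.κ_mem j) hr, Tn_mul k (by omega) (ch.w_mem j) hr, ?_, ?_⟩
    · change dd k (HD k C) (ch.κ j * r) = 0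
      rw [dd_mul, hd, ch.κ_dd, mul_zero, zero_mul, add_zero]
    · change ch.om * (ch.κ j * r) + dd k (HD k C) (ch.w j * r) = 0
      rw [dd_mul, hd, mul_zero, zero_add, ← mul_assoc, ← add_mul, ch.w_dd, zero_mul]
  | zero => exact ⟨zero_mem _, zero_mem _, map_zero _, by simp⟩
  | add x y _ _ hx hy =>
    obtain ⟨h1, h2, h3, h4⟩ := hx
    obtain ⟨g1, g2, g3, g4⟩ := hy
    refine ⟨add_mem h1 g1, add_mem h2 g2, ?_, ?_⟩
    · rw [Prod.fst_add, map_add, h3, g3, add_zero]
    · rw [Prod.fst_add, Prod.snd_add, map_add, mul_add]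
      calc _ = (ch.om * x.1 + dd k (HD k C) x.2) + (ch.om * y.1 + dd k (HD k C) y.2) := by abel
        _ = 0 := by rw [h4, g4, add_zero]
  | smul c x _ hx =>
    obtain ⟨h1, h2, h3, h4⟩ := hx
    refine ⟨Submodule.smul_mem _ _ h1, Submodule.smul_mem _ _ h2, ?_, ?_⟩
    · rw [Prod.smul_fst, map_smul, h3, smul_zero]
    · rw [Prod.smul_fst, Prod.smul_snd, map_smul, mul_smul_comm, ← smul_add, h4, smul_zero]

private theorem Gs_rm (ch : ChainR p R) {m n d : ℕ} {r : TA k (HD k C)}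
    (hr : r ∈ Tn k (HD k C) d) (hd : dd k (HD k C) r = 0) (h : m + d = n) {z : Pr k C}
    (hz : z ∈ Gs ch m) : rm r z ∈ Gs ch n := by
  have h1 : Gs ch m ≤ (Gs ch n).comap (rm r) := by
    refine Submodule.span_le.2 ?_
    rintro _ ⟨j, a, s, hs, hds, hj, rfl⟩
    refine Submodule.subset_span ⟨j, a + d, s * r, Tn_mul k rfl hs hr, ?_, by omega, ?_⟩
    · rw [dd_mul, hd, hds, mul_zero, zero_mul, add_zero]
    · rw [rm_apply, rm_apply, rm_apply, mul_assoc, mul_assoc]
  exact h1 hz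

private theorem Bd_rm (ch : ChainR p R) {m n d : ℕ} {r : TA k (HD k C)}
    (hr : r ∈ Tn k (HD k C) d) (hd : dd k (HD k C) r = 0) (h : m + d = n) {z : Pr k C}
    (hz : z ∈ Bd ch m) : rm r z ∈ Bd ch n := by
  obtain ⟨t, ht, rfl⟩ := hz
  rw [← bd_rm ch hd]
  exact ⟨rm r t, ⟨Tp_mul k h ht.1 hr, Tn_mul k h ht.2 hr⟩, rfl⟩

/-- the pairs of degree `n + 1` which are coboundaries of elements with trivial evaluation -/
private noncomputable def Lf (ch : ChainR p R) (n : ℕ) : Submodule k (Pr k C) where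
  carrier := {z | ∃ X' : TA k (HD k B), X' ∈ Tn k (HD k B) n ∧ dd k (HD k B) X' = toV ch z ∧
    EV k (R.X ^ (N - 1)) R.X X' 0 0 = 0}
  zero_mem' := ⟨0, zero_mem _, by rw [map_zero, map_zero], by rw [map_zero]; rfl⟩
  add_mem' := by
    rintro z z' ⟨X, h1, h2, h3⟩ ⟨X', h1', h2', h3'⟩
    refine ⟨X + X', add_mem h1 h1', by rw [map_add, map_add, h2, h2'], ?_⟩
    rw [map_add, Matrix.add_apply, h3, h3', add_zero]
  smul_mem' := by
    rintro c z ⟨X, h1, h2, h3⟩
    refine ⟨c • X, Submodule.smul_mem _ c h1, by rw [map_smul, map_smul, h2], ?_⟩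
    rw [map_smul, Matrix.smul_apply, h3, smul_zero]

private theorem HD_X (hN : 2 ≤ N) (a : HD k C) :
    (HDmap π a).ofConv R.X = 0 ∧ (HDmap π a).ofConv (R.X ^ (N - 1)) = 0 := by
  have h1 : π R.X = 0 := (R.ker _).2 ⟨1, by rw [one_mul]⟩
  constructor
  · rw [HDmap_apply, h1, map_zero]
  · have h2 : N - 1 ≠ 0 := by omega
    rw [HDmap_apply, map_pow, h1, zero_pow h2, map_zero]

/-- the evaluation vanishes on the cobar algebra of `C` in positive degrees -/
theorem EV_PT (hN : 2 ≤ N) {n : ℕ} (hn : 0 < n) {w : TA k (HD k C)}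
    (hw : w ∈ Tn k (HD k C) n) : EV k (R.X ^ (N - 1)) R.X (PT π w) = 0 := by
  obtain ⟨n, rfl⟩ : ∃ m, n = m + 1 := ⟨n - 1, by omega⟩
  change w ∈ LinearMap.range (TensorAlgebra.ι k (M := HD k C)) ^ (n + 1) at hw
  rw [pow_succ] at hw
  induction hw using Submodule.mul_induction_on' with
  | mem_mul_mem a ha b hb =>
    obtain ⟨b, rfl⟩ := hb
    have h1 : PT π (TensorAlgebra.ι k b) = io k (HDmap π b) := mapT_ι _ b
    obtain ⟨h2, h3⟩ := HD_X (π := π) (R := R) hN b
    rw [map_mul, map_mul, h1, EV_io, h2, h3]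
    have h4 : (!![0, 0; 0, 0] : Matrix (Fin 2) (Fin 2) k) = 0 := by
      ext i j
      fin_cases i <;> fin_cases j <;> rfl
    rw [h4, mul_zero]
  | add a ha b hb ha' hb' => rw [map_add, map_add, ha', hb', add_zero]

private theorem Bd_le (ch : ChainR p R) (hN : 2 ≤ N) {n : ℕ} (hn : 2 ≤ n) : Bd ch n ≤ Lf ch n := by
  rintro _ ⟨z, hz, rfl⟩
  obtain ⟨n, rfl⟩ : ∃ m, n = m + 2 := ⟨n - 2, by omega⟩
  have h1 : z.1 ∈ Tn k (HD k C) (n + 1) := hz.1
  have h2 : z.2 ∈ Tn k (HD k C) (n + 2) := hz.2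
  refine ⟨toV ch z, ?_, dd_toV ch z, ?_⟩
  · rw [toV_apply]
    refine add_mem (Tn_mul k (by omega : 1 + (n + 1) = n + 2) ?_ (mapT_pow _ _ _ h1))
      (mapT_pow _ _ _ h2)
    change io k ch.lam ∈ LinearMap.range (TensorAlgebra.ι k (M := HD k B)) ^ 1
    rw [pow_one]
    exact ⟨_, rfl⟩
  · rw [toV_apply, map_add, map_mul, EV_PT (R := R) hN (Nat.succ_pos _) h1,
      EV_PT (R := R) hN (by omega) h2, mul_zero, add_zero]
    rfl

private theorem Gs_rm_le (ch : ChainR p R) (hN : 2 ≤ N) {m n d : ℕ} {r : TA k (HD k C)}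
    (hr : r ∈ Tn k (HD k C) d) (hd : dd k (HD k C) r = 0) (h : m + d = n) (hd0 : 0 < d)
    {z : Pr k C} (hz : z ∈ Gs ch m) : rm r z ∈ Lf ch n := by
  have h1 : Gs ch m ≤ (Lf ch n).comap (rm r) := by
    refine Submodule.span_le.2 ?_
    rintro _ ⟨j, a, s, hs, hds, hj, rfl⟩
    have hsr : s * r ∈ Tn k (HD k C) (a + d) := Tn_mul k rfl hs hr
    have hdsr : dd k (HD k C) (s * r) = 0 := by
      rw [dd_mul, hd, hds, mul_zero, zero_mul, add_zero]
    refine ⟨ch.x j * PT π (s * r), Tn_mul k (by omega) (ch.x_mem j) (mapT_pow _ _ _ hsr), ?_, ?_⟩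
    · rw [toV_rm, toV_rm, toV_apply, dd_mul, ← mapT_dd, hdsr, map_zero, mul_zero, zero_add,
        ch.x_dd, map_mul, mul_assoc]
    · rw [map_mul, EV_PT (R := R) hN (by omega) hsr, mul_zero]
      rfl
  exact h1 hz

private theorem desc_bound {n : ℕ} (hn : 0 < n) (v w : TA k (HD k C))
    (hw : dd k (HD k C) v = w) (hd : dd k (HD k C) w = 0) : clsT k n w hd = 0 := by
  obtain ⟨n, rfl⟩ : ∃ m, n = m + 1 := ⟨n - 1, by omega⟩
  subst hw
  exact clsT_bound k n v

private theorem desc_congr {n : ℕ} {w w' : TA k (HD k C)} (h : w = w')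
    (hd : dd k (HD k C) w = 0) (hd' : dd k (HD k C) w' = 0) :
    clsT k n w hd = clsT k n w' hd' := by
  subst h
  rfl

/-- the classes of first components -/
private noncomputable def cl1 (n : ℕ) (G : Submodule k (Pr k C)) :
    Submodule k (Ext (trivObj k C) (trivObj k C) n) where
  carrier := {x | ∃ z ∈ G, ∃ hd : dd k (HD k C) z.1 = 0, clsT k n z.1 hd = x}
  zero_mem' := by
    refine ⟨0, zero_mem _, map_zero _, ?_⟩
    have h := clsT_smul k n 0 (0 : TA k (HD k C)) (map_zero _) (by rw [smul_zero, map_zero])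
    exact (desc_congr (smul_zero (0 : k)).symm _ _).trans (h.trans (zero_smul k _))
  add_mem' := by
    rintro _ _ ⟨z, hz, hd, rfl⟩ ⟨z', hz', hd', rfl⟩
    have h : dd k (HD k C) (z.1 + z'.1) = 0 := by rw [map_add, hd, hd', add_zero]
    exact ⟨z + z', add_mem hz hz', h, clsT_add k n z.1 z'.1 hd hd' h⟩
  smul_mem' := by
    rintro c _ ⟨z, hz, hd, rfl⟩
    have h : dd k (HD k C) (c • z.1) = 0 := by rw [map_smul, hd, smul_zero]
    exact ⟨c • z, Submodule.smul_mem _ c hz, h, clsT_smul k n c z.1 hd h⟩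

/-- the classes of the second components of pairs with trivial first component -/
private noncomputable def cl2 (n : ℕ) (G : Submodule k (Pr k C)) :
    Submodule k (Ext (trivObj k C) (trivObj k C) n) where
  carrier := {x | ∃ w' : TA k (HD k C), (0, w') ∈ G ∧ ∃ hd : dd k (HD k C) w' = 0,
    clsT k n w' hd = x}
  zero_mem' := by
    refine ⟨0, zero_mem _, map_zero _, ?_⟩
    have h := clsT_smul k n 0 (0 : TA k (HD k C)) (map_zero _) (by rw [smul_zero, map_zero])
    exact (desc_congr (smul_zero (0 : k)).symm _ _).trans (h.trans (zero_smul k _))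
  add_mem' := by
    rintro _ _ ⟨z, hz, hd, rfl⟩ ⟨z', hz', hd', rfl⟩
    have h : dd k (HD k C) (z + z') = 0 := by rw [map_add, hd, hd', add_zero]
    refine ⟨z + z', ?_, h, clsT_add k n z z' hd hd' h⟩
    have h2 := add_mem hz hz'
    rwa [Prod.mk_add_mk, add_zero] at h2
  smul_mem' := by
    rintro c _ ⟨z, hz, hd, rfl⟩
    have h : dd k (HD k C) (c • z) = 0 := by rw [map_smul, hd, smul_zero]
    refine ⟨c • z, ?_, h, clsT_smul k n c z hd h⟩
    have h2 := Submodule.smul_mem _ c hz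
    rwa [Prod.smul_mk, smul_zero] at h2

/-- the second sequence of submodules, indexed by the degree of the class -/
private noncomputable def Bs (ch : ChainR p R) :
    (n : ℕ) → Submodule k (Ext (trivObj k C) (trivObj k C) n)
  | 0 => ⊥
  | n + 1 => cl2 (n + 1) (Gs ch n ⊔ Bd ch n)

theorem descent (hN : 2 ≤ N) (hp : 2 ≤ p) (hC : FGE k C) (ch : ChainR p R) :
    ∃ (K : ℕ) (Θ : TA k (HD k B)), Θ ∈ Tn k (HD k B) (2 * p ^ K) ∧ dd k (HD k B) Θ = 0 ∧
      EV k (R.X ^ (N - 1)) R.X Θ 0 0 = 1 := by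
  obtain ⟨r, ζ, hζ⟩ := hC
  have hfin : Module.Finite C (trivObj k C) := by
    have h : Module.Finite k (Triv k C) := inferInstanceAs (Module.Finite k k)
    exact (Module.Finite.of_restrictScalars_finite k C (Triv k C) : Module.Finite C (Triv k C))
  -- representatives
  have hz : ∀ i, ∃ w ∈ Tn k (HD k C) (ζ.deg i), ∃ hd : dd k (HD k C) w = 0,
      clsT k (ζ.deg i) w hd = ζ.cls i := fun i => clsT_surj k (ζ.deg i) (ζ.cls i)
  choose zz hzm hzd hzc using hz
  obtain ⟨N₁, hN₁⟩ := ζ.hilb (trivObj k C) (hζ _ hfin) (fun n => cl1 n (Gs ch n)) (by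
    rintro i m n h _ ⟨z, hz, hd, rfl⟩
    have h1 : dd k (HD k C) (z.1 * zz i) = 0 := by
      rw [dd_mul, hd, hzd, mul_zero, zero_mul, add_zero]
    refine ⟨rm (zz i) z, Gs_rm ch (hzm i) (hzd i) (by omega) hz, h1, ?_⟩
    rw [← hzc i]
    exact clsT_mul k h z.1 (zz i) (Gs_prop ch hz).1 (hzm i) hd (hzd i) h1)
  have hBprop : ∀ {n : ℕ} {w' : TA k (HD k C)}, ((0, w') : Pr k C) ∈ Gs ch n ⊔ Bd ch n →
      w' ∈ Tn k (HD k C) (n + 1) := by
    intro n w' h
    obtain ⟨g, hg, b, hb, hgb⟩ := Submodule.mem_sup.1 h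
    obtain ⟨t, ht, rfl⟩ := hb
    have h1 : w' = g.2 + (bd ch t).2 := (congrArg Prod.snd hgb).symm
    rw [h1, bd_apply]
    refine add_mem (Gs_prop ch hg).2.1 (add_mem ?_ (dd_Tn k (HD k C) n _ ht.2))
    cases n with
    | zero =>
      have h0 : t.1 = 0 := ht.1
      rw [h0, mul_zero]
      exact zero_mem _
    | succ n => exact Tn_mul k (by omega) ch.om_mem (show t.1 ∈ Tn k (HD k C) n from ht.1)
  obtain ⟨N₂, hN₂⟩ := ζ.hilb (trivObj k C) (hζ _ hfin) (Bs ch) (by
    intro i m n h x hx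
    cases m with
    | zero =>
      have hx0 : x = 0 := hx
      rw [hx0, Ext.comp_zero]
      exact zero_mem _
    | succ m =>
      obtain ⟨n, rfl⟩ : ∃ n', n = n' + 1 := ⟨n - 1, by omega⟩
      obtain ⟨w', hw', hd, rfl⟩ := hx
      have h1 : dd k (HD k C) (w' * zz i) = 0 := by
        rw [dd_mul, hd, hzd, mul_zero, zero_mul, add_zero]
      refine ⟨w' * zz i, ?_, h1, ?_⟩
      · obtain ⟨g, hg, b, hb, hgb⟩ := Submodule.mem_sup.1 hw'
        have h2 : ((0, w' * zz i) : Pr k C) = rm (zz i) g + rm (zz i) b := by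
          rw [← map_add, hgb, rm_apply, zero_mul]
        rw [h2]
        exact Submodule.add_mem_sup (Gs_rm ch (hzm i) (hzd i) (by omega) hg)
          (Bd_rm ch (hzm i) (hzd i) (by omega) hb)
      · rw [← hzc i]
        exact clsT_mul k h w' (zz i) (hBprop hw') (hzm i) hd (hzd i) h1)
  -- the main claim
  have main : ∀ n, N₁ ≤ n → N₂ ≤ n → 2 ≤ n → Gs ch n ≤ Lf ch n := by
    intro n h1 h2 h3 g hg
    obtain ⟨g1, g2, g3, g4⟩ := Gs_prop ch hg
    have hA : (⨆ (i : Fin r) (m : ℕ) (h : ζ.deg i + m = n),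
        (cl1 m (Gs ch m)).map ((ζ.cls i).precompOfLinear k (trivObj k C) h)) ≤
        cl1 n (Gs ch n ⊓ Lf ch n) := by
      refine iSup_le fun i => iSup_le fun m => iSup_le fun h => ?_
      rintro _ ⟨_, ⟨z, hz, hd, rfl⟩, rfl⟩
      have h4 : dd k (HD k C) (z.1 * zz i) = 0 := by
        rw [dd_mul, hd, hzd, mul_zero, zero_mul, add_zero]
      refine ⟨rm (zz i) z, ⟨Gs_rm ch (hzm i) (hzd i) (by omega) hz,
        Gs_rm_le ch hN (hzm i) (hzd i) (by omega) (ζ.pos i) hz⟩, h4, ?_⟩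
      rw [← hzc i]
      exact clsT_mul k h z.1 (zz i) (Gs_prop ch hz).1 (hzm i) hd (hzd i) h4
    have hB : (⨆ (i : Fin r) (m : ℕ) (h : ζ.deg i + m = n + 1),
        (Bs ch m).map ((ζ.cls i).precompOfLinear k (trivObj k C) h)) ≤
        cl2 (n + 1) (Lf ch n ⊓ (Gs ch n ⊔ Bd ch n)) := by
      refine iSup_le fun i => iSup_le fun m => iSup_le fun h => ?_
      rintro _ ⟨x, hx, rfl⟩
      cases m with
      | zero =>
        have hx0 : x = 0 := hx
        rw [hx0, map_zero]
        exact zero_mem _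
      | succ m =>
        obtain ⟨w', hw', hd, rfl⟩ := hx
        have h5 : dd k (HD k C) (w' * zz i) = 0 := by
          rw [dd_mul, hd, hzd, mul_zero, zero_mul, add_zero]
        obtain ⟨g, hg, b, hb, hgb⟩ := Submodule.mem_sup.1 hw'
        have h6 : ((0, w' * zz i) : Pr k C) = rm (zz i) g + rm (zz i) b := by
          rw [← map_add, hgb, rm_apply, zero_mul]
        refine ⟨w' * zz i, ?_, h5, ?_⟩
        · rw [h6]
          have h7 := Bd_rm ch (hzm i) (hzd i) (by omega : m + ζ.deg i = n) hb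
          exact ⟨add_mem (Gs_rm_le ch hN (hzm i) (hzd i) (by omega) (ζ.pos i) hg)
            (Bd_le ch hN h3 h7), Submodule.add_mem_sup
              (Gs_rm ch (hzm i) (hzd i) (by omega) hg) h7⟩
        · rw [← hzc i]
          exact clsT_mul k h w' (zz i) (hBprop hw') (hzm i) hd (hzd i) h5
    have hgA : clsT k n g.1 g3 ∈ cl1 n (Gs ch n) := ⟨g, hg, g3, rfl⟩
    obtain ⟨g', ⟨hg'G, hg'L⟩, hg'd, hg'c⟩ := hA (hN₁ n h1 hgA)
    -- the difference of the first components
    have hdiff : dd k (HD k C) (g.1 - g'.1) = 0 := by rw [map_sub, g3, hg'd, sub_zero]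
    have hcl : clsT k n (g.1 - g'.1) hdiff = 0 := by
      have h5 : dd k (HD k C) ((g.1 - g'.1) + g'.1) = 0 := by rw [sub_add_cancel]; exact g3
      have h6 := clsT_add k n (g.1 - g'.1) g'.1 hdiff hg'd h5
      rw [desc_congr (sub_add_cancel g.1 g'.1) h5 g3, hg'c] at h6
      exact right_eq_add.1 h6
    obtain ⟨n, rfl⟩ : ∃ n', n = n' + 1 := ⟨n - 1, by omega⟩
    obtain ⟨u, hu, hdu⟩ := clsT_inj k n (g.1 - g'.1)
      (sub_mem g1 (Gs_prop ch hg'G).1) hdiff hcl
    -- the second component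
    have hbu : bd ch (u, 0) ∈ Bd ch (n + 1) :=
      ⟨(u, 0), ⟨(show u ∈ Tp k C (n + 1) from hu), zero_mem _⟩, rfl⟩
    set w' : TA k (HD k C) := g.2 - g'.2 + ch.om * u with hw'
    have hw'e : ((0, w') : Pr k C) = (g - g') + bd ch (u, 0) := by
      rw [bd_apply, map_zero, add_zero]
      ext
      · change 0 = g.1 - g'.1 + -dd k (HD k C) u
        rw [hdu]
        abel
      · rfl
    have hw'm : ((0, w') : Pr k C) ∈ Gs ch (n + 1) ⊔ Bd ch (n + 1) := by
      rw [hw'e]
      exact Submodule.add_mem_sup (sub_mem hg hg'G) hbu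
    have hw'd : dd k (HD k C) w' = 0 := by
      have h5 : dd k (HD k C) (ch.om * u) = ch.om * dd k (HD k C) u + dd k (HD k C) ch.om * u := by
        rw [dd_mul]
        congr 2
        rw [sg_Tn k (HD k C) 2 ch.om ch.om_mem]
        simp
      have h6 : dd k (HD k C) ch.om = 0 := by
        have h7 : Function.Injective (HDmap π : HD k C →ₗ[k] HD k B) := by
          intro a b hab
          apply WithConv.ofConv_injective
          ext c
          obtain ⟨b', rfl⟩ := R.surj c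
          exact congrArg (fun h : HD k B => h.ofConv b') hab
        apply mapT_injective _ h7
        rw [mapT_dd, map_zero]
        have h8 := congrArg (dd k (HD k B)) ch.lam_dd
        rw [dd_dd] at h8
        exact h8.symm
      have g4' := (Gs_prop ch hg'G).2.2.2
      rw [hw', map_add, map_sub, h5, h6, zero_mul, add_zero, hdu]
      calc dd k (HD k C) g.2 - dd k (HD k C) g'.2 + ch.om * (g.1 - g'.1) =
          (ch.om * g.1 + dd k (HD k C) g.2) - (ch.om * g'.1 + dd k (HD k C) g'.2) := by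
            rw [mul_sub]; abel
        _ = 0 := by rw [g4, g4', sub_zero]
    have hw'B : clsT k (n + 1 + 1) w' hw'd ∈ Bs ch (n + 1 + 1) := ⟨w', hw'm, hw'd, rfl⟩
    obtain ⟨w₂, ⟨hw₂L, hw₂B⟩, hw₂d, hw₂c⟩ := hB (hN₂ (n + 1 + 1) (by omega) hw'B)
    have hdiff2 : dd k (HD k C) (w' - w₂) = 0 := by rw [map_sub, hw'd, hw₂d, sub_zero]
    have hcl2 : clsT k (n + 1 + 1) (w' - w₂) hdiff2 = 0 := by
      have h5 : dd k (HD k C) ((w' - w₂) + w₂) = 0 := by rw [sub_add_cancel]; exact hw'd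
      have h6 := clsT_add k (n + 1 + 1) (w' - w₂) w₂ hdiff2 hw₂d h5
      rw [desc_congr (sub_add_cancel w' w₂) h5 hw'd, hw₂c] at h6
      exact right_eq_add.1 h6
    obtain ⟨v, hv, hdv⟩ := clsT_inj k (n + 1) (w' - w₂)
      (sub_mem (hBprop hw'm) (hBprop hw₂B)) hdiff2 hcl2
    have hbv : bd ch (0, v) ∈ Bd ch (n + 1) := ⟨(0, v), ⟨zero_mem _, hv⟩, rfl⟩
    have hfin : g = g' + (((0, w₂) : Pr k C) + bd ch (0, v)) - bd ch (u, 0) := by
      have h5 : bd ch (0, v) = ((0, w' - w₂) : Pr k C) := by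
        rw [bd_apply, map_zero, neg_zero, mul_zero, zero_add, hdv]
      have h6 : ((0, w₂) : Pr k C) + (0, w' - w₂) = (0, w') := by
        rw [Prod.mk_add_mk, add_zero, add_sub_cancel]
      rw [h5, h6, hw'e]
      abel
    rw [hfin]
    exact sub_mem (add_mem hg'L (add_mem hw₂L (Bd_le ch hN h3 hbv))) (Bd_le ch hN h3 hbu)
  -- choose `K`
  obtain ⟨K, hK1, hK2⟩ : ∃ K : ℕ, max N₁ N₂ ≤ 2 * p ^ K ∧ 2 ≤ 2 * p ^ K := by
    refine ⟨max N₁ N₂, ?_, ?_⟩
    · have : max N₁ N₂ < p ^ max N₁ N₂ := Nat.lt_pow_self hp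
      omega
    · have : 0 < p ^ max N₁ N₂ := by positivity
      omega
  have hgK : ((ch.κ K, ch.w K) : Pr k C) ∈ Gs ch (2 * p ^ K) := by
    have h0 : dd k (HD k C) 1 = 0 := by
      have h := dd_mul k (HD k C) 1 1
      rw [map_one, one_mul, mul_one] at h
      simpa using h
    refine Submodule.subset_span ⟨K, 0, 1, ?_, h0, rfl, ?_⟩
    · change (1 : TA k (HD k C)) ∈ LinearMap.range (TensorAlgebra.ι k (M := HD k C)) ^ 0
      rw [pow_zero]
      exact Submodule.one_le.1 le_rfl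
    · rw [rm_apply, mul_one, mul_one]
  obtain ⟨X', hX', hdX', hEX'⟩ := main _ ((le_max_left _ _).trans hK1)
    ((le_max_right _ _).trans hK1) hK2 hgK
  refine ⟨K, ch.x K - X', sub_mem (ch.x_mem K) hX', ?_, ?_⟩
  · rw [map_sub, hdX', ch.x_dd, toV_apply, sub_self]
  · rw [map_sub, Matrix.sub_apply, ch.x_ev, hEX', sub_zero]

end

end Pool.Agent.Helper90.R1
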