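import Pool.Agent.Helper90.R1.Str
import Pool.Agent.Helper90.FC.Cls
import Pool.Agent.Helper59.FG.Hopf

/-!
# Project R1: modules which are free over `k[X]`

`FX R M`: every element of `M` killed by `X` is of the form `X^(N-1) m'`.
-/

set_option linter.unusedSectionVars false
set_option autoImplicit false

open CategoryTheory CategoryTheory.Abelian CategoryTheory.Limits
open scoped ModuleCat TensorProduct
open Pool.Agent.Helper59.FG Pool.Agent.Helper90.FC

namespace Pool.Agent.Helper90.R1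

universe u

section

variable {k : Type u} [Field k] {B C : Type u} [Ring B] [Ring C] [HopfAlgebra k B]
variable [HopfAlgebra k C] {N : ℕ} {π : B →ₐc[k] C}

/-- `M` is free over `k[X]`. -/
def FX (R : RData N π) (M : ModuleCat.{u} B) : Prop :=
  ∀ m : M, R.X • m = 0 → ∃ m' : M, m = R.X ^ (N - 1) • m'

/-- The action of `X`. -/
noncomputable def XL (R : RData N π) (M : ModuleCat.{u} B) : M →ₗ[k] M :=
  Algebra.lsmul k k M R.X

theorem XL_apply (R : RData N π) (M : ModuleCat.{u} B) (m : M) : XL R M m = R.X • m := rfl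

theorem XL_pow (R : RData N π) (M : ModuleCat.{u} B) (n : ℕ) (m : M) :
    (XL R M ^ n) m = R.X ^ n • m := by
  unfold XL
  rw [← map_pow]
  rfl

theorem XL_nilp (R : RData N π) (M : ModuleCat.{u} B) : XL R M ^ N = 0 := by
  ext m
  rw [XL_pow, R.nilp, zero_smul]
  rfl

theorem FX_iff (R : RData N π) (M : ModuleCat.{u} B) :
    FX R M ↔ LinearMap.ker (XL R M) ≤ LinearMap.range (XL R M ^ (N - 1)) := by
  constructor
  · intro h m hm
    obtain ⟨m', hm'⟩ := h m hm
    exact ⟨m', by rw [XL_pow]; exact hm'.symm⟩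
  · intro h m hm
    obtain ⟨m', hm'⟩ := h (show m ∈ LinearMap.ker (XL R M) from hm)
    exact ⟨m', by rw [← hm', XL_pow]⟩

/-- an element killed by `X^(N-1)` is of the form `X m'` -/
theorem FX.last {R : RData N π} {M : ModuleCat.{u} B} (h : FX R M) (hN : 0 < N) (m : M)
    (hm : R.X ^ (N - 1) • m = 0) : ∃ m' : M, m = R.X • m' := by
  have h1 := ker_pow_le (XL R M) ((FX_iff R M).1 h) (N - 1) (by omega)
  have e : N - (N - 1) = 1 := by omega
  rw [e, pow_one] at h1
  obtain ⟨m', hm'⟩ := h1 (show m ∈ LinearMap.ker (XL R M ^ (N - 1)) from by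
    rw [LinearMap.mem_ker, XL_pow]; exact hm)
  exact ⟨m', hm'.symm⟩

/-- isomorphic modules -/
theorem FX.of_iso {R : RData N π} {M M' : ModuleCat.{u} B} (e : M ≅ M') (h : FX R M) :
    FX R M' := by
  intro m hm
  obtain ⟨m', hm'⟩ := h (e.inv.hom m) (by rw [← map_smul, hm, map_zero])
  refine ⟨e.hom.hom m', ?_⟩
  rw [← map_smul, ← hm']
  exact (congr($(e.inv_hom_id).hom m)).symm

section

variable [Module.Finite k B]

/-- projective modules are free over `k[X]` -/
theorem FX.proj (R : RData N π) (hN : 0 < N) (P : ModuleCat.{u} B) (hP : Projective P) :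
    FX R P := by
  have h0 : Module.Projective B P := (IsProjective.iff_projective P).2 hP
  obtain ⟨s, hs⟩ := (Module.projective_def' (R := B) (P := P)).1 h0
  intro m hm
  have h1 : R.X • s m = 0 := by rw [← map_smul, hm, map_zero]
  have h2 : ∀ i, ∃ b, s m i = R.X ^ (N - 1) * b := by
    intro i
    refine R.annL hN ?_
    have h3 := congrArg (fun f => f i) h1
    exact h3
  choose b hb using h2
  refine ⟨∑ i ∈ (s m).support, b i • i, ?_⟩
  have h3 : m = ∑ i ∈ (s m).support, s m i • i := by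
    conv_lhs => rw [← LinearMap.id_apply (R := B) m, ← hs, LinearMap.comp_apply,
      Finsupp.linearCombination_apply, Finsupp.sum]
    rfl
  conv_lhs => rw [h3]
  rw [Finset.smul_sum]
  refine Finset.sum_congr rfl fun i _ => ?_
  rw [hb, mul_smul]

/-- coinduced modules are free over `k[X]` -/
theorem FX.coind (R : RData N π) (hN : 0 < N) (X : Type u) [AddCommGroup X] [Module k X] :
    FX R (ModuleCat.of B (Coind k B X)) := by
  intro g hg
  let g0 : B →ₗ[k] X := g
  have hg0 : ∀ b : B, g0 (b * R.X) = 0 := fun b =>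
    congrArg (fun f : B →ₗ[k] X => f b) hg
  have hker : ∀ b : B, (R.rX ^ (N - 1)) b = 0 → g0 b = 0 := by
    intro b hb
    rw [R.rX_pow] at hb
    obtain ⟨b', rfl⟩ := R.ann hN hb
    exact hg0 b'
  let f := R.rX ^ (N - 1)
  obtain ⟨s, hs⟩ := f.rangeRestrict.exists_rightInverse_of_surjective f.range_rangeRestrict
  obtain ⟨p, hp⟩ := (LinearMap.range f).subtype.exists_leftInverse_of_injective
    (Submodule.ker_subtype _)
  refine ⟨(g0 ∘ₗ s ∘ₗ p : B →ₗ[k] X), ?_⟩
  refine LinearMap.ext fun b => ?_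
  change g0 b = g0 (s (p (b * R.X ^ (N - 1))))
  have h1 : b * R.X ^ (N - 1) = f b := (R.rX_pow _ b).symm
  have h2 : p (f b) = f.rangeRestrict b := by
    have h3 := congr($hp (f.rangeRestrict b))
    exact h3
  rw [h1, h2]
  have h4 : f.rangeRestrict (s (f.rangeRestrict b)) = f.rangeRestrict b :=
    congr($hs (f.rangeRestrict b))
  have h5 : f (b - s (f.rangeRestrict b)) = 0 := by
    rw [map_sub, sub_eq_zero]
    exact (congrArg Subtype.val h4).symm
  have h6 := hker _ h5
  rw [map_sub, sub_eq_zero] at h6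
  exact h6

end

/-- lifting of elements killed by `X` -/
theorem FX.lift {R : RData N π} (hN : 0 < N) {S : ShortComplex (ModuleCat.{u} B)}
    (hS : S.ShortExact) (h₁ : FX R S.X₁) (z : S.X₃) (hz : R.X • z = 0) :
    ∃ y : S.X₂, R.X • y = 0 ∧ S.g.hom y = z := by
  have hE := (ShortComplex.ShortExact.moduleCat_exact_iff_function_exact _).1 hS.exact
  have hsur : Function.Surjective S.g.hom := (ModuleCat.epi_iff_surjective _).1 hS.epi_g
  have hinj : Function.Injective S.f.hom := (ModuleCat.mono_iff_injective _).1 hS.mono_f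
  obtain ⟨y, hy⟩ := hsur z
  obtain ⟨x, hx⟩ := (hE (R.X • y)).1 (by
    change S.g.hom (R.X • y) = 0
    rw [map_smul, hy, hz])
  have hx' : S.f.hom x = R.X • y := hx
  have h1 : R.X ^ (N - 1) • x = 0 := by
    apply hinj
    rw [map_smul, hx', map_zero, ← mul_smul, ← pow_succ]
    have e : N - 1 + 1 = N := by omega
    rw [e, R.nilp, zero_smul]
  obtain ⟨x', hx''⟩ := h₁.last hN x h1
  have hzero : S.g.hom (S.f.hom x') = 0 := (hE _).2 ⟨x', rfl⟩
  refine ⟨y - S.f.hom x', ?_, ?_⟩
  · rw [smul_sub, ← map_smul, ← hx'', hx', sub_self]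
  · rw [map_sub, hy, hzero, sub_zero]

theorem FX.of_ses {R : RData N π} (hN : 0 < N) {S : ShortComplex (ModuleCat.{u} B)}
    (hS : S.ShortExact) (h₁ : FX R S.X₁) (h₂ : FX R S.X₂) : FX R S.X₃ := by
  intro z hz
  obtain ⟨y, hy, rfl⟩ := FX.lift hN hS h₁ z hz
  obtain ⟨y', rfl⟩ := h₂ y hy
  exact ⟨S.g.hom y', by rw [map_smul]⟩

end

end Pool.Agent.Helper90.R1
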