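import Mathlib

/-!
# Project R1: linear algebra of an operator `T` with `T ^ N = 0`

`V` is free over `k[T]/T^N` if and only if `ker T ≤ range T^(N-1)`.
-/

set_option linter.unusedSectionVars false
set_option autoImplicit false

open Module

namespace Pool.Agent.Helper90.R1

section

variable {k : Type*} [Field k] {V : Type*} [AddCommGroup V] [Module k V]

/-- If `ker T ≤ range T^(N-1)` then `ker T^a ≤ range T^(N-a)`. -/
theorem ker_pow_le {N : ℕ} (T : V →ₗ[k] V) (h : LinearMap.ker T ≤ LinearMap.range (T ^ (N - 1)))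
    (a : ℕ) (ha : a ≤ N) : LinearMap.ker (T ^ a) ≤ LinearMap.range (T ^ (N - a)) := by
  induction a with
  | zero =>
    intro v hv
    have h1 : v = 0 := hv
    rw [h1]
    exact zero_mem _
  | succ a ih =>
    intro v hv
    have h1 : T ((T ^ a) v) = 0 := by
      rw [← Module.End.mul_apply, ← pow_succ']
      exact hv
    obtain ⟨m, hm⟩ := h (show (T ^ a) v ∈ LinearMap.ker T from h1)
    have e1 : N - 1 = a + (N - (a + 1)) := by omega
    have h2 : v - (T ^ (N - (a + 1))) m ∈ LinearMap.ker (T ^ a) := by
      rw [LinearMap.mem_ker, map_sub, ← hm, ← Module.End.mul_apply (T ^ a), ← pow_add, ← e1,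
        sub_self]
    obtain ⟨m', hm'⟩ := ih (by omega) h2
    have e2 : N - a = (N - (a + 1)) + 1 := by omega
    refine ⟨m + T m', ?_⟩
    rw [map_add, ← Module.End.mul_apply _ T, ← pow_succ, ← e2, hm']
    abel

variable [Module.Finite k V]

/-- dimension of the image of a submodule -/
theorem finrank_map_add {W : Type*} [AddCommGroup W] [Module k W] (f : V →ₗ[k] W)
    (U : Submodule k V) :
    finrank k (U.map f) + finrank k (U ⊓ LinearMap.ker f : Submodule k V) = finrank k U := by
  have h1 := LinearMap.finrank_range_add_finrank_ker (f.domRestrict U)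
  rw [LinearMap.range_domRestrict] at h1
  have h2 : finrank k (LinearMap.ker (f.domRestrict U)) =
      finrank k (U ⊓ LinearMap.ker f : Submodule k V) := by
    have h3 : (LinearMap.ker (f.domRestrict U)).map U.subtype = U ⊓ LinearMap.ker f := by
      ext x
      constructor
      · rintro ⟨y, hy, rfl⟩
        exact ⟨y.2, hy⟩
      · rintro ⟨hx, hx'⟩
        exact ⟨⟨x, hx⟩, hx', rfl⟩
    rw [← h3]
    exact (LinearEquiv.finrank_eq (Submodule.equivMapOfInjective U.subtype
      (Submodule.injective_subtype U) _))
  rw [← h2]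
  exact h1

/-- dimension of the inverse image -/
theorem finrank_comap_surj {W : Type*} [AddCommGroup W] [Module k W] (q : V →ₗ[k] W)
    (hq : Function.Surjective q) (U : Submodule k W) :
    finrank k (U.comap q) = finrank k U + finrank k (LinearMap.ker q) := by
  have h1 := finrank_map_add q (U.comap q)
  rw [Submodule.map_comap_eq_of_surjective hq] at h1
  have h2 : (U.comap q ⊓ LinearMap.ker q : Submodule k V) = LinearMap.ker q := by
    refine inf_eq_right.2 fun x hx => ?_
    have h3 : q x = 0 := hx
    change q x ∈ U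
    rw [h3]
    exact zero_mem _
  rw [h2] at h1
  exact h1.symm

/-- `r_j = dim (ker T ∩ range T^j)` -/
noncomputable def rj (T : V →ₗ[k] V) (j : ℕ) : ℕ :=
  finrank k (LinearMap.ker T ⊓ LinearMap.range (T ^ j) : Submodule k V)

theorem rj_anti (T : V →ₗ[k] V) {i j : ℕ} (h : i ≤ j) : rj T j ≤ rj T i := by
  refine Submodule.finrank_mono (inf_le_inf_left _ ?_)
  obtain ⟨d, rfl⟩ := Nat.exists_eq_add_of_le h
  rw [pow_add]
  exact LinearMap.range_comp_le_range _ _

theorem rj_zero (T : V →ₗ[k] V) : rj T 0 = finrank k (LinearMap.ker T) := by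
  unfold rj
  have h : (LinearMap.ker T ⊓ LinearMap.range (T ^ 0) : Submodule k V) = LinearMap.ker T := by
    refine inf_eq_left.2 fun x _ => ⟨x, by rw [pow_zero]; rfl⟩
  rw [h]

theorem range_step (T : V →ₗ[k] V) (j : ℕ) :
    finrank k (LinearMap.range (T ^ (j + 1))) + rj T j = finrank k (LinearMap.range (T ^ j)) := by
  have h1 := finrank_map_add T (LinearMap.range (T ^ j))
  have h2 : (LinearMap.range (T ^ j)).map T = LinearMap.range (T ^ (j + 1)) := by
    rw [pow_succ']
    exact (LinearMap.range_comp _ _).symm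
  rw [h2, inf_comm] at h1
  exact h1

theorem finrank_eq_sum (T : V →ₗ[k] V) (n : ℕ) :
    finrank k V = (∑ j ∈ Finset.range n, rj T j) + finrank k (LinearMap.range (T ^ n)) := by
  induction n with
  | zero =>
    rw [Finset.range_zero, Finset.sum_empty, zero_add, pow_zero]
    have h : LinearMap.range (1 : V →ₗ[k] V) = ⊤ := LinearMap.range_id
    rw [h, finrank_top]
  | succ n ih =>
    rw [Finset.sum_range_succ, ih, ← range_step T n]
    ring

theorem finrank_eq_sum' {N : ℕ} (T : V →ₗ[k] V) (hT : T ^ N = 0) :
    finrank k V = ∑ j ∈ Finset.range N, rj T j := by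
  rw [finrank_eq_sum T N, hT, LinearMap.range_zero, finrank_bot, add_zero]

theorem rj_last {N : ℕ} (hN : 0 < N) (T : V →ₗ[k] V) (hT : T ^ N = 0) :
    rj T (N - 1) = finrank k (LinearMap.range (T ^ (N - 1))) := by
  unfold rj
  have h : (LinearMap.ker T ⊓ LinearMap.range (T ^ (N - 1)) : Submodule k V) =
      LinearMap.range (T ^ (N - 1)) := by
    refine inf_eq_right.2 ?_
    rintro _ ⟨x, rfl⟩
    rw [LinearMap.mem_ker, ← Module.End.mul_apply, ← pow_succ']
    have e : N - 1 + 1 = N := by omega
    rw [e, hT]
    rfl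
  rw [h]

/-- the condition in terms of dimensions -/
theorem ker_le_iff {N : ℕ} (hN : 0 < N) (T : V →ₗ[k] V) (hT : T ^ N = 0) :
    LinearMap.ker T ≤ LinearMap.range (T ^ (N - 1)) ↔
      finrank k V = N * finrank k (LinearMap.ker T) := by
  constructor
  · intro h
    rw [finrank_eq_sum' T hT]
    have h1 : ∀ j ∈ Finset.range N, rj T j = finrank k (LinearMap.ker T) := by
      intro j hj
      have hj' : j ≤ N - 1 := by
        have := Finset.mem_range.1 hj
        omega
      apply le_antisymm
      · rw [← rj_zero]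
        exact rj_anti T (Nat.zero_le j)
      · refine le_trans ?_ (rj_anti T hj')
        unfold rj
        rw [inf_eq_left.2 h]
    rw [Finset.sum_congr rfl h1, Finset.sum_const, Finset.card_range, smul_eq_mul]
  · intro h
    rw [finrank_eq_sum' T hT] at h
    have h1 : ∀ j ∈ Finset.range N, rj T j ≤ finrank k (LinearMap.ker T) := by
      intro j _
      rw [← rj_zero]
      exact rj_anti T (Nat.zero_le j)
    have h2 : ∑ j ∈ Finset.range N, rj T j =
        ∑ _j ∈ Finset.range N, finrank k (LinearMap.ker T) := by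
      rw [h, Finset.sum_const, Finset.card_range, smul_eq_mul]
    have h3 := (Finset.sum_eq_sum_iff_of_le h1).1 h2 (N - 1) (Finset.mem_range.2 (by omega))
    unfold rj at h3
    have h4 := Submodule.eq_of_le_of_finrank_eq
      (inf_le_left : (LinearMap.ker T ⊓ LinearMap.range (T ^ (N - 1)) : Submodule k V) ≤ _) h3
    exact inf_eq_left.1 h4

theorem finrank_le_mul {N : ℕ} (T : V →ₗ[k] V) (hT : T ^ N = 0) :
    finrank k V ≤ N * finrank k (LinearMap.ker T) := by
  rw [finrank_eq_sum' T hT]
  have h1 : ∀ j ∈ Finset.range N, rj T j ≤ finrank k (LinearMap.ker T) := by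
    intro j _
    rw [← rj_zero]
    exact rj_anti T (Nat.zero_le j)
  refine (Finset.sum_le_sum h1).trans ?_
  rw [Finset.sum_const, Finset.card_range, smul_eq_mul]

/-- if the defect is at most one and `N` divides the dimension then there is no defect -/
theorem ker_le_of_dvd {N : ℕ} (hN : 0 < N) (T : V →ₗ[k] V) (hT : T ^ N = 0)
    (h : finrank k (LinearMap.ker T) ≤ finrank k (LinearMap.range (T ^ (N - 1))) + 1)
    (hd : N ∣ finrank k V) : LinearMap.ker T ≤ LinearMap.range (T ^ (N - 1)) := by
  rw [ker_le_iff hN T hT]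
  set r := finrank k (LinearMap.range (T ^ (N - 1))) with hr
  have h0 : rj T 0 ≤ r + 1 := by rw [rj_zero]; exact h
  have hl : rj T (N - 1) = r := rj_last hN T hT
  rw [← rj_zero]
  by_cases hc : rj T 0 = r
  · rw [finrank_eq_sum' T hT]
    have h1 : ∀ j ∈ Finset.range N, rj T j = rj T 0 := by
      intro j hj
      have hj' : j ≤ N - 1 := by
        have := Finset.mem_range.1 hj
        omega
      have h2 := rj_anti T (Nat.zero_le j)
      have h3 := rj_anti T hj'
      omega
    rw [Finset.sum_congr rfl h1, Finset.sum_const, Finset.card_range, smul_eq_mul]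
  · exfalso
    -- the number of `j` with `r_j = r + 1`
    have hv : ∀ j ∈ Finset.range N, rj T j = r + (if rj T j = r + 1 then 1 else 0) := by
      intro j hj
      have hj' : j ≤ N - 1 := by
        have := Finset.mem_range.1 hj
        omega
      have h2 := rj_anti T (Nat.zero_le j)
      have h3 := rj_anti T hj'
      split_ifs with h4
      · exact h4
      · omega
    have hs : finrank k V = N * r + ((Finset.range N).filter fun j => rj T j = r + 1).card := by
      rw [finrank_eq_sum' T hT, Finset.sum_congr rfl hv, Finset.sum_add_distrib, Finset.sum_const,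
        Finset.card_range, smul_eq_mul, Finset.card_filter]
    set c := ((Finset.range N).filter fun j => rj T j = r + 1).card with hcard
    have hc1 : 0 < c := by
      refine Finset.card_pos.2 ⟨0, ?_⟩
      rw [Finset.mem_filter]
      refine ⟨Finset.mem_range.2 hN, ?_⟩
      have := rj_anti T (Nat.zero_le (N - 1))
      omega
    have hc2 : c < N := by
      have h5 : ((Finset.range N).filter fun j => rj T j = r + 1) ⊂ Finset.range N := by
        rw [Finset.filter_ssubset]
        exact ⟨N - 1, Finset.mem_range.2 (by omega), by omega⟩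
      have := Finset.card_lt_card h5
      rwa [Finset.card_range] at this
    rw [hs] at hd
    have h6 : N ∣ c := (Nat.dvd_add_right (Dvd.intro _ rfl)).1 hd
    exact absurd (Nat.le_of_dvd hc1 h6) (by omega)

end

section

variable {k : Type*} [Field k] {V V' V'' : Type*} [AddCommGroup V] [Module k V]
variable [AddCommGroup V'] [Module k V'] [AddCommGroup V''] [Module k V'']
variable [Module.Finite k V] [Module.Finite k V'] [Module.Finite k V'']

/-- the defect of the first term of an exact sequence with free middle term is at most the one of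
the last term -/
theorem defect_shift {N : ℕ} (hN : 0 < N) (T : V →ₗ[k] V) (T' : V' →ₗ[k] V') (T'' : V'' →ₗ[k] V'')
    (i : V' →ₗ[k] V) (q : V →ₗ[k] V'') (hi : Function.Injective i) (hq : Function.Surjective q)
    (hiq : LinearMap.range i = LinearMap.ker q) (hTi : ∀ v, T (i v) = i (T' v))
    (hTq : ∀ v, q (T v) = T'' (q v)) (hT : T ^ N = 0) (hT'' : T'' ^ N = 0)
    (h : LinearMap.ker T ≤ LinearMap.range (T ^ (N - 1))) :
    finrank k (LinearMap.ker T') + finrank k (LinearMap.range (T'' ^ (N - 1))) ≤
      finrank k (LinearMap.range (T' ^ (N - 1))) + finrank k (LinearMap.ker T'') := by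
  have hTi' : ∀ (n : ℕ) v, (T ^ n) (i v) = i ((T' ^ n) v) := by
    intro n
    induction n with
    | zero => intro v; rfl
    | succ n ih =>
      intro v
      rw [pow_succ', pow_succ', Module.End.mul_apply, Module.End.mul_apply, ih, hTi]
  have hTq' : ∀ (n : ℕ) v, q ((T ^ n) v) = (T'' ^ n) (q v) := by
    intro n
    induction n with
    | zero => intro v; rfl
    | succ n ih =>
      intro v
      rw [pow_succ', pow_succ', Module.End.mul_apply, Module.End.mul_apply, hTq, ih]
  have eN : N - 1 + 1 = N := by omega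
  set U := (LinearMap.ker (T'' ^ (N - 1))).comap q with hU
  set U₀ := (LinearMap.range T'').comap q with hU₀
  set f := T ^ (N - 1) with hf
  have hle : U₀ ≤ U := by
    rintro v ⟨w, hw⟩
    change (T'' ^ (N - 1)) (q v) = 0
    rw [← hw, ← Module.End.mul_apply, ← pow_succ, eN, hT'']
    rfl
  have h1 := finrank_map_add f U
  have h2 := finrank_map_add f U₀
  have h3 : finrank k (U₀ ⊓ LinearMap.ker f : Submodule k V) ≤
      finrank k (U ⊓ LinearMap.ker f : Submodule k V) :=
    Submodule.finrank_mono (inf_le_inf_right _ hle)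
  have h4 : U.map f = (LinearMap.ker T').map i := by
    ext x
    constructor
    · rintro ⟨v, hv, rfl⟩
      have h5 : q (f v) = 0 := by
        rw [hf, hTq']
        exact hv
      have h6 : f v ∈ LinearMap.range i := by rw [hiq]; exact h5
      obtain ⟨v', hv'⟩ := h6
      refine ⟨v', ?_, hv'⟩
      apply hi
      rw [← hTi, hv', hf, ← Module.End.mul_apply, ← pow_succ', eN, hT, map_zero]
      rfl
    · rintro ⟨v', hv', rfl⟩
      have h5 : T (i v') = 0 := by
        rw [hTi, show T' v' = 0 from hv', map_zero]
      obtain ⟨v, hv⟩ := h (show i v' ∈ LinearMap.ker T from h5)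
      refine ⟨v, ?_, hv⟩
      change (T'' ^ (N - 1)) (q v) = 0
      rw [← hTq', hv]
      have h6 : i v' ∈ LinearMap.ker q := by rw [← hiq]; exact ⟨v', rfl⟩
      exact h6
  have h5 : U₀.map f = (LinearMap.range (T' ^ (N - 1))).map i := by
    ext x
    constructor
    · rintro ⟨v, ⟨w, hw⟩, rfl⟩
      obtain ⟨w', rfl⟩ := hq w
      have h6 : v - T w' ∈ LinearMap.range i := by
        rw [hiq, LinearMap.mem_ker, map_sub, hTq, hw, sub_self]
      obtain ⟨v', hv'⟩ := h6
      refine ⟨(T' ^ (N - 1)) v', ⟨v', rfl⟩, ?_⟩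
      rw [← hTi', hv', map_sub, ← Module.End.mul_apply _ T, ← pow_succ, eN, hT]
      simp [hf]
    · rintro ⟨_, ⟨v', rfl⟩, rfl⟩
      refine ⟨i v', ?_, hTi' _ _⟩
      have h6 : i v' ∈ LinearMap.ker q := by rw [← hiq]; exact ⟨v', rfl⟩
      change q (i v') ∈ LinearMap.range T''
      rw [show q (i v') = 0 from h6]
      exact zero_mem _
  have h6 : finrank k (U.map f) = finrank k (LinearMap.ker T') := by
    rw [h4]
    exact LinearEquiv.finrank_eq (Submodule.equivMapOfInjective i hi _).symm
  have h7 : finrank k (U₀.map f) = finrank k (LinearMap.range (T' ^ (N - 1))) := by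
    rw [h5]
    exact LinearEquiv.finrank_eq (Submodule.equivMapOfInjective i hi _).symm
  have h8 := finrank_comap_surj q hq (LinearMap.ker (T'' ^ (N - 1)))
  have h9 := finrank_comap_surj q hq (LinearMap.range T'')
  rw [← hU] at h8
  rw [← hU₀] at h9
  have h10 := LinearMap.finrank_range_add_finrank_ker (T'' ^ (N - 1))
  have h11 := LinearMap.finrank_range_add_finrank_ker T''
  omega

/-- the defect of an extension of `V''` by a line contained in the image of `T^(N-1)` -/
theorem defect_ext {N : ℕ} (T : V →ₗ[k] V) (T'' : V'' →ₗ[k] V'')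
    (e : V) (q : V →ₗ[k] V'') (hq : Function.Surjective q)
    (hiq : LinearMap.ker q = Submodule.span k {e})
    (hTq : ∀ v, q (T v) = T'' (q v))
    (he : e ∈ LinearMap.range (T ^ (N - 1))) :
    finrank k (LinearMap.ker T) + finrank k (LinearMap.range (T'' ^ (N - 1))) ≤
      finrank k (LinearMap.range (T ^ (N - 1))) + finrank k (LinearMap.ker T'') := by
  have hTq' : ∀ (n : ℕ) v, q ((T ^ n) v) = (T'' ^ n) (q v) := by
    intro n
    induction n with
    | zero => intro v; rfl
    | succ n ih =>
      intro v
      rw [pow_succ', pow_succ', Module.End.mul_apply, Module.End.mul_apply, hTq, ih]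
  have h1 := finrank_map_add q (LinearMap.ker T)
  have h2 := finrank_map_add q (LinearMap.range (T ^ (N - 1)))
  have h3 : (LinearMap.ker T).map q ≤ LinearMap.ker T'' := by
    rintro _ ⟨v, hv, rfl⟩
    rw [LinearMap.mem_ker, ← hTq, show T v = 0 from hv, map_zero]
  have h4 : (LinearMap.range (T ^ (N - 1))).map q = LinearMap.range (T'' ^ (N - 1)) := by
    ext x
    constructor
    · rintro ⟨_, ⟨v, rfl⟩, rfl⟩
      exact ⟨q v, (hTq' _ _).symm⟩
    · rintro ⟨w, rfl⟩
      obtain ⟨v, rfl⟩ := hq w
      exact ⟨(T ^ (N - 1)) v, ⟨v, rfl⟩, hTq' _ _⟩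
  have h5 : LinearMap.range (T ^ (N - 1)) ⊓ LinearMap.ker q = LinearMap.ker q := by
    refine inf_eq_right.2 ?_
    rw [hiq, Submodule.span_singleton_le_iff_mem]
    exact he
  have h6 : finrank k (LinearMap.ker T ⊓ LinearMap.ker q : Submodule k V) ≤
      finrank k (LinearMap.ker q) := Submodule.finrank_mono inf_le_right
  have h7 := Submodule.finrank_mono h3
  rw [h4, h5] at h2
  omega

end

end Pool.Agent.Helper90.R1
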