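import Pool.Agent.Helper90.R1.Defs
import Pool.Agent.Helper90.R1.LinA

/-!
# Project R1: the structure of `B`

`B X = X B`, `{b | b X^(N-1) = 0} = B X` and `{b | X b = 0} = X^(N-1) B`.
-/

set_option linter.unusedSectionVars false
set_option autoImplicit false

open CategoryTheory CategoryTheory.Abelian CategoryTheory.Limits
open scoped ModuleCat TensorProduct
open Pool.Agent.Helper59.FG Pool.Agent.Helper90.FC

namespace Pool.Agent.Helper90.R1

universe u

section

variable {k : Type u} [Field k] {B C : Type u} [Ring B] [Ring C] [HopfAlgebra k B]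
variable [HopfAlgebra k C] {N : ℕ} {π : B →ₐc[k] C}

theorem RData.norm (R : RData N π) (b : B) : ∃ b' : B, R.X * b = b' * R.X := by
  refine (R.ker _).1 ?_
  have h1 : π R.X = 0 := (R.ker _).2 ⟨1, by rw [one_mul]⟩
  rw [map_mul, h1, zero_mul]

theorem RData.comm (R : RData N π) (b : B) : ∃ b' : B, b * R.X = R.X * b' := by
  have key : ∀ j : ℕ, ∀ b : B, ∃ b' c : B, b * R.X = R.X * b' + c * R.X ^ (j + 1) := by
    intro j
    induction j with
    | zero => intro b; exact ⟨0, b, by rw [mul_zero, zero_add, zero_add, pow_one]⟩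
    | succ j ih =>
      intro b
      obtain ⟨c, hc⟩ := R.cen b
      obtain ⟨s, t, hst⟩ := ih c
      refine ⟨b - s * R.X, -t, ?_⟩
      have h1 : b * R.X = R.X * b - c * R.X ^ 2 := by rw [← hc]; noncomm_ring
      rw [h1, pow_two, ← mul_assoc, hst, pow_succ _ (j + 1)]
      noncomm_ring
  obtain ⟨b', c, h⟩ := key N b
  refine ⟨b', ?_⟩
  rw [h, pow_succ, R.nilp, zero_mul, mul_zero, add_zero]

/-- right multiplication by `X` -/
noncomputable def RData.rX (R : RData N π) : B →ₗ[k] B := LinearMap.mulRight k R.X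

/-- left multiplication by `X` -/
noncomputable def RData.lX (R : RData N π) : B →ₗ[k] B := LinearMap.mulLeft k R.X

theorem RData.rX_pow (R : RData N π) (n : ℕ) (b : B) : (R.rX ^ n) b = b * R.X ^ n := by
  induction n generalizing b with
  | zero => rw [pow_zero, pow_zero, mul_one]; rfl
  | succ n ih =>
    rw [pow_succ, pow_succ', Module.End.mul_apply, ih]
    change b * R.X * R.X ^ n = _
    rw [mul_assoc]

theorem RData.lX_pow (R : RData N π) (n : ℕ) (b : B) : (R.lX ^ n) b = R.X ^ n * b := by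
  induction n generalizing b with
  | zero => rw [pow_zero, pow_zero, one_mul]; rfl
  | succ n ih =>
    rw [pow_succ, pow_succ, Module.End.mul_apply, ih]
    change R.X ^ n * (R.X * b) = _
    rw [mul_assoc]

variable [Module.Finite k B]

theorem RData.range_rX (R : RData N π) :
    LinearMap.range R.rX = LinearMap.ker (π : B →ₐ[k] C).toLinearMap := by
  ext b
  constructor
  · rintro ⟨c, rfl⟩
    exact (R.ker _).2 ⟨c, rfl⟩
  · intro h
    obtain ⟨c, rfl⟩ := (R.ker b).1 h
    exact ⟨c, rfl⟩

theorem RData.range_lX (R : RData N π) : LinearMap.range R.lX = LinearMap.range R.rX := by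
  ext b
  constructor
  · rintro ⟨c, rfl⟩
    obtain ⟨d, hd⟩ := R.norm c
    exact ⟨d, hd.symm⟩
  · rintro ⟨c, rfl⟩
    obtain ⟨d, hd⟩ := R.comm c
    exact ⟨d, hd.symm⟩

theorem RData.finrank_range (R : RData N π) :
    Module.finrank k (LinearMap.range R.rX) + Module.finrank k C = Module.finrank k B := by
  rw [R.range_rX]
  have h := LinearMap.finrank_range_add_finrank_ker (π : B →ₐ[k] C).toLinearMap
  have h2 : LinearMap.range (π : B →ₐ[k] C).toLinearMap = ⊤ := LinearMap.range_eq_top.2 R.surj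
  rw [h2, finrank_top] at h
  omega

theorem RData.rX_ker (R : RData N π) (hN : 0 < N) :
    LinearMap.ker R.rX ≤ LinearMap.range (R.rX ^ (N - 1)) := by
  have h0 : R.rX ^ N = 0 := by
    ext b
    rw [R.rX_pow, R.nilp, mul_zero]
    rfl
  rw [ker_le_iff hN R.rX h0, R.dim]
  have h1 := LinearMap.finrank_range_add_finrank_ker R.rX
  have h2 := R.finrank_range
  have h3 : Module.finrank k C = Module.finrank k (LinearMap.ker R.rX) := by omega
  rw [h3]

theorem RData.lX_ker (R : RData N π) (hN : 0 < N) :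
    LinearMap.ker R.lX ≤ LinearMap.range (R.lX ^ (N - 1)) := by
  have h0 : R.lX ^ N = 0 := by
    ext b
    rw [R.lX_pow, R.nilp, zero_mul]
    rfl
  rw [ker_le_iff hN R.lX h0, R.dim]
  have h1 := LinearMap.finrank_range_add_finrank_ker R.lX
  have h2 := R.finrank_range
  rw [R.range_lX] at h1
  have h3 : Module.finrank k C = Module.finrank k (LinearMap.ker R.lX) := by omega
  rw [h3]

/-- `{b | b X^(N-1) = 0} = B X` -/
theorem RData.ann (R : RData N π) (hN : 0 < N) {b : B} (h : b * R.X ^ (N - 1) = 0) :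
    ∃ b' : B, b = b' * R.X := by
  have h1 := ker_pow_le R.rX (R.rX_ker hN) (N - 1) (by omega)
  have e : N - (N - 1) = 1 := by omega
  rw [e, pow_one] at h1
  obtain ⟨c, hc⟩ := h1 (show b ∈ LinearMap.ker (R.rX ^ (N - 1)) from by
    rw [LinearMap.mem_ker, R.rX_pow]; exact h)
  exact ⟨c, hc.symm⟩

/-- `{b | X b = 0} = X^(N-1) B` -/
theorem RData.annL (R : RData N π) (hN : 0 < N) {b : B} (h : R.X * b = 0) :
    ∃ b' : B, b = R.X ^ (N - 1) * b' := by
  obtain ⟨c, hc⟩ := R.lX_ker hN (show b ∈ LinearMap.ker R.lX from h)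
  exact ⟨c, by rw [← hc, R.lX_pow]⟩

end

end Pool.Agent.Helper90.R1
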